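import Pool.Agent.Y713.CR.Cls

open Set Filter Topology MeasureTheory
open scoped ContDiff InnerProductSpace ENNReal

namespace Pool.Agent.Y713.CR

open Pool.Agent.Helper28.Cr

lemma frame_exists {a b : E3} (h : Orth a b) :
    ∃ p : Q4, p ≠ 0 ∧ a = (nq p)⁻¹ • c1 p ∧ b = -((nq p)⁻¹ • c2 p) := by
  obtain ⟨ha, hb, hab⟩ := h
  have hTS : ((a, -b) : E3 × E3) ∈ TS 1 := ⟨ha, by
    show ⟪a, -b⟫_ℝ = 0
    rw [inner_neg_right, hab, neg_zero], by
    show ‖-b‖ = 1
    rw [norm_neg, hb]⟩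
  obtain ⟨p, hp, hpr⟩ := pr_surj one_pos hTS
  have h1 : (nq p)⁻¹ • c1 p = a := congrArg Prod.fst hpr
  have h2 : (1 * (nq p)⁻¹) • c2 p = -b := congrArg Prod.snd hpr
  refine ⟨p, hp, h1.symm, ?_⟩
  rw [one_mul] at h2
  rw [h2, neg_neg]

/-- the inner product of two quaternions -/
def dt (p q : Q4) : ℝ := p 0 * q 0 + p 1 * q 1 + p 2 * q 2 + p 3 * q 3

lemma dt_smul (p q : Q4) (c : ℝ) : dt p (c • q) = c * dt p q := by
  simp only [dt, Pi.smul_apply, smul_eq_mul]; ring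

lemma dt_lq (p q : Q4) (w : E3) (t : ℝ) : dt p (lq w t q) =
    Real.cos t * dt p q + Real.sin t * dt p (qm ![0, w 0, w 1, w 2] q) := by
  simp only [dt, lq, Pi.add_apply, Pi.smul_apply, smul_eq_mul]; ring

lemma sigP_iff {r : ℝ} (hr : 0 < r) {p q : Q4} (hp : p ≠ 0) (hq : q ≠ 0) :
    pr r q ∈ SigP r ((nq p)⁻¹ • c1 p) (-((nq p)⁻¹ • c2 p)) ↔ dt p q = 0 := by
  rw [sigP_eq hr (c_norms hp)]
  constructor
  · rintro ⟨m, hm, h⟩
    rw [← pr_half hm] at h
    have hne : qm ![0, m 0, m 1, m 2] p ≠ 0 := by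
      rw [← qm_lq]; exact lq_ne hm _ hp
    obtain ⟨c, hc, h1⟩ := pr_inj hr.ne' hq hne h
    have h2 : dt p (qm ![0, m 0, m 1, m 2] p) = 0 := perp_half m p
    rw [h1, dt_smul] at h2
    exact (mul_eq_zero.1 h2).resolve_left hc
  · intro h
    obtain ⟨m, hm, hK⟩ := flat_form (r := r) hp hq h
    exact ⟨m, hm, hK⟩

lemma trig_root (A B : ℝ) : ∃ t : ℝ, Real.cos t * A + Real.sin t * B = 0 := by
  by_cases hB : B = 0
  · exact ⟨Real.pi / 2, by rw [hB, Real.cos_pi_div_two]; ring⟩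
  · refine ⟨Real.arctan (-A / B), ?_⟩
    have hc := Real.cos_arctan_pos (-A / B)
    rw [← Real.tan_mul_cos hc.ne', Real.tan_arctan]
    field_simp
    ring

/-- the surfaces `Σ_{r P}` meet all the orbits -/
theorem blocks_SigP {r : ℝ} (hr : 0 < r) {a b : E3} (h : Orth a b) : Blocks r (SigP r a b) := by
  obtain ⟨p, hp, rfl, rfl⟩ := frame_exists h
  intro w hw P hP
  obtain ⟨q, hq, rfl⟩ := pr_surj hr hP
  obtain ⟨t, ht⟩ := trig_root (dt p q) (dt p (qm ![0, w 0, w 1, w 2] q))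
  refine ⟨2 * t, ?_⟩
  rw [← pr_lq hw, sigP_iff hr hp (lq_ne hw t hq), dt_lq]
  exact ht

lemma dir_exists {p q : Q4} (hp : p ≠ 0) (hq : q ≠ 0) (h : dt p q = 0) :
    ∃ w : E3, ‖w‖ = 1 ∧ dt p (qm ![0, w 0, w 1, w 2] q) ≠ 0 := by
  by_contra hcon
  push Not at hcon
  have n0 : ‖(!₂[1, 0, 0] : E3)‖ = 1 := by simp [EuclideanSpace.norm_eq, Fin.sum_univ_three]
  have n1 : ‖(!₂[0, 1, 0] : E3)‖ = 1 := by simp [EuclideanSpace.norm_eq, Fin.sum_univ_three]
  have n2 : ‖(!₂[0, 0, 1] : E3)‖ = 1 := by simp [EuclideanSpace.norm_eq, Fin.sum_univ_three]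
  have h0 := hcon _ n0
  have h1 := hcon _ n1
  have h2 := hcon _ n2
  simp only [Matrix.cons_val_zero, Matrix.cons_val_one, Matrix.cons_val] at h0 h1 h2
  have key : nq p * nq q = (dt p q) ^ 2 + (dt p (qm ![0, 1, 0, 0] q)) ^ 2 +
      (dt p (qm ![0, 0, 1, 0] q)) ^ 2 + (dt p (qm ![0, 0, 0, 1] q)) ^ 2 := by
    simp only [dt, qm, nq, Matrix.cons_val_zero, Matrix.cons_val_one, Matrix.cons_val]; ring
  rw [h, h0, h1, h2] at key
  have hpos := mul_pos (nq_pos hp) (nq_pos hq)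
  norm_num at key
  rcases key with h | h
  · exact (nq_pos hp).ne' h
  · exact (nq_pos hq).ne' h

/-- the surfaces `Σ_{r P}` are embedded without boundary -/
theorem surf_SigP {r : ℝ} (hr : 0 < r) {a b : E3} (h : Orth a b) : IsSurf1 r (SigP r a b) := by
  have hsub : SigP r a b ⊆ TS r := fun P hP => (sigP_sub hr h.1 h.2.1 h.2.2 P hP).1
  obtain ⟨p, hp, rfl, rfl⟩ := frame_exists h
  refine ⟨hsub, ?_⟩
  intro P hP
  obtain ⟨q₀, hq₀, rfl⟩ := pr_surj hr (hsub hP)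
  obtain ⟨i, hi⟩ : ∃ i, q₀ i ≠ 0 := Function.ne_iff.1 hq₀
  have hd := (sigP_iff hr hp hq₀).1 hP
  obtain ⟨w, hw, hwd⟩ := dir_exists hp hq₀ hd
  set f : E3 × E3 → ℝ := fun P => TT r P i 0 * p 0 + TT r P i 1 * p 1 + TT r P i 2 * p 2 +
    TT r P i 3 * p 3 with hf
  have hcd : ContDiff ℝ ∞ f := ((((cd_TT r i 0).mul contDiff_const).add
    ((cd_TT r i 1).mul contDiff_const)).add ((cd_TT r i 2).mul contDiff_const)).add
    ((cd_TT r i 3).mul contDiff_const)
  have hval : ∀ q : Q4, q ≠ 0 → f (pr r q) = 4 * q i / nq q * dt p q := by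
    intro q hq
    have hn := (nq_pos hq).ne'
    simp only [hf, TT_pr hr.ne' hq, dt]
    field_simp
  refine ⟨{P | TT r P i i ≠ 0}, f, isOpen_ne_fun (cd_TT r i i).continuous continuous_const, ?_,
    (hcd.of_le (by simp)).contDiffOn, ?_, (crs w (pr r q₀).1, crs w (pr r q₀).2),
    isTan_crs w _, ?_⟩
  · show TT r (pr r q₀) i i ≠ 0
    rw [TT_pr hr.ne' hq₀]
    have hn := (nq_pos hq₀).ne'
    exact div_ne_zero (mul_ne_zero (mul_ne_zero (by norm_num) hi) hi) hn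
  · intro Q hQ hQT
    obtain ⟨q, hq, rfl⟩ := pr_surj hr hQT
    rw [sigP_iff hr hp hq, hval q hq]
    have hqi : q i ≠ 0 := by
      intro h0
      apply hQ
      show TT r (pr r q) i i = 0
      rw [TT_pr hr.ne' hq, h0]; simp
    have hc : 4 * q i / nq q ≠ 0 := div_ne_zero (mul_ne_zero (by norm_num) hqi) (nq_pos hq).ne'
    constructor
    · intro h; rw [h, mul_zero]
    · intro h; exact (mul_eq_zero.1 h).resolve_left hc
  · have hn := (nq_pos hq₀).ne'
    set A := q₀ i with hA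
    set B := (qm ![0, w 0, w 1, w 2] q₀) i with hB
    set D := dt p (qm ![0, w 0, w 1, w 2] q₀) with hD
    have h1 : HasDerivAt (fun t : ℝ => orb w t (pr r q₀)) (crs w (pr r q₀).1, crs w (pr r q₀).2) 0 :=
      (hasDerivAt_rot w _).prodMk (hasDerivAt_rot w _)
    have h2 : HasFDerivAt f (fderiv ℝ f (pr r q₀)) (orb w 0 (pr r q₀)) := by
      rw [orb_zero]
      exact (hcd.contDiffAt.differentiableAt (by simp)).hasFDerivAt
    have h3 := h2.comp_hasDerivAt (0:ℝ) h1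
    have h4 : (f ∘ fun t : ℝ => orb w t (pr r q₀)) = fun t : ℝ =>
        4 / nq q₀ * ((Real.cos (t / 2) * A + Real.sin (t / 2) * B) * (Real.sin (t / 2) * D)) := by
      funext t
      have e1 : orb w t (pr r q₀) = pr r (lq w (t / 2) q₀) := by
        rw [pr_lq hw, show 2 * (t / 2) = t by ring]
      show f (orb w t (pr r q₀)) = _
      rw [e1, hval _ (lq_ne hw _ hq₀), nq_lq hw, dt_lq, hd]
      have e2 : lq w (t / 2) q₀ i = Real.cos (t / 2) * A + Real.sin (t / 2) * B := by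
        simp only [lq, Pi.add_apply, Pi.smul_apply, smul_eq_mul, hA, hB]
      rw [e2]
      ring
    have h5 : HasDerivAt (fun t : ℝ =>
        4 / nq q₀ * ((Real.cos (t / 2) * A + Real.sin (t / 2) * B) * (Real.sin (t / 2) * D)))
        (4 / nq q₀ * (A * (D / 2))) 0 := by
      have a0 : HasDerivAt (fun t : ℝ => t / 2) (1 / 2) 0 := (hasDerivAt_id (0:ℝ)).div_const 2
      have ac : HasDerivAt (fun t : ℝ => Real.cos (t / 2)) 0 0 := by
        simpa using a0.cos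
      have as : HasDerivAt (fun t : ℝ => Real.sin (t / 2)) (1 / 2) 0 := by
        simpa using a0.sin
      have b := ((ac.mul_const A).fun_add (as.mul_const B)).fun_mul (as.mul_const D)
      have b' := b.const_mul (4 / nq q₀)
      have e0 : 4 / nq q₀ * (A * (D / 2)) = 4 / nq q₀ *
          ((0 * A + 1 / 2 * B) * (Real.sin (0 / 2) * D) +
            (Real.cos (0 / 2) * A + Real.sin (0 / 2) * B) * (1 / 2 * D)) := by
        rw [zero_div, Real.sin_zero, Real.cos_zero]; ring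
      rw [e0]
      exact b'
    rw [h4] at h3
    have h6 := h3.unique h5
    rw [h6]
    have hAne : A ≠ 0 := hi
    have hDne : D ≠ 0 := hwd
    positivity

lemma closed_SigP (r : ℝ) (a b : E3) : IsClosed (SigP r a b) := isClosed_closure

end Pool.Agent.Y713.CR
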