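import Pool.Agent.Y713.CR.Meet
import Pool.Agent.Helper28.CrFib

open Set Filter Topology MeasureTheory
open scoped ContDiff InnerProductSpace ENNReal

namespace Pool.Agent.Y713.CR

open Pool.Agent.Helper28.Cr

lemma crs_self (x : E3) : crs x x = 0 := by
  apply ext3
  · rw [crs0]; simp; ring
  · rw [crs1]; simp; ring
  · rw [crs2]; simp; ring

lemma rot_self {x : E3} (hx : ‖x‖ = 1) (t : ℝ) : rot x t x = x := by
  unfold rot
  rw [crs_self, smul_zero, add_zero, real_inner_self_eq_norm_sq, hx]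
  rw [← add_smul]
  rw [show Real.cos t + (1 - Real.cos t) * 1 ^ 2 = 1 by ring, one_smul]

/-- a vector orthogonal to `x` and to `v`, where `x` is a unit vector, `v ≠ 0` and `x ⟂ v`, is a
multiple of `x × v` -/
lemma perp_crs {x v u : E3} (hx : ‖x‖ = 1) (hv : v ≠ 0) (hxv : ⟪x, v⟫_ℝ = 0)
    (h1 : ⟪x, u⟫_ℝ = 0) (h2 : ⟪v, u⟫_ℝ = 0) : ∃ c : ℝ, u = c • crs x v := by
  have hx2 := unit3 hx
  have hn : 0 < v 0 ^ 2 + v 1 ^ 2 + v 2 ^ 2 := by
    rw [← nsq3]
    have := norm_pos_iff.2 hv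
    positivity
  set n := v 0 ^ 2 + v 1 ^ 2 + v 2 ^ 2 with hnd
  rw [inner3] at hxv h1 h2
  refine ⟨(u 0 * crs x v 0 + u 1 * crs x v 1 + u 2 * crs x v 2) / n, ?_⟩
  have key : ∀ i : Fin 3, n * u i = (u 0 * crs x v 0 + u 1 * crs x v 1 + u 2 * crs x v 2) *
      crs x v i := by
    intro i
    rw [crs0, crs1, crs2]
    fin_cases i
    · show n * u 0 = _ * crs x v 0
      rw [crs0, hnd]
      linear_combination (-((v 0 ^ 2 + v 1 ^ 2 + v 2 ^ 2) * u 0)) * hx2 +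
        ((x 0 * v 0 + x 1 * v 1 + x 2 * v 2) * u 0) * hxv +
        ((v 0 ^ 2 + v 1 ^ 2 + v 2 ^ 2) * x 0 - (x 0 * v 0 + x 1 * v 1 + x 2 * v 2) * v 0) * h1 +
        ((x 0 ^ 2 + x 1 ^ 2 + x 2 ^ 2) * v 0 - (x 0 * v 0 + x 1 * v 1 + x 2 * v 2) * x 0) * h2
    · show n * u 1 = _ * crs x v 1
      rw [crs1, hnd]
      linear_combination (-((v 0 ^ 2 + v 1 ^ 2 + v 2 ^ 2) * u 1)) * hx2 +
        ((x 0 * v 0 + x 1 * v 1 + x 2 * v 2) * u 1) * hxv +
        ((v 0 ^ 2 + v 1 ^ 2 + v 2 ^ 2) * x 1 - (x 0 * v 0 + x 1 * v 1 + x 2 * v 2) * v 1) * h1 +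
        ((x 0 ^ 2 + x 1 ^ 2 + x 2 ^ 2) * v 1 - (x 0 * v 0 + x 1 * v 1 + x 2 * v 2) * x 1) * h2
    · show n * u 2 = _ * crs x v 2
      rw [crs2, hnd]
      linear_combination (-((v 0 ^ 2 + v 1 ^ 2 + v 2 ^ 2) * u 2)) * hx2 +
        ((x 0 * v 0 + x 1 * v 1 + x 2 * v 2) * u 2) * hxv +
        ((v 0 ^ 2 + v 1 ^ 2 + v 2 ^ 2) * x 2 - (x 0 * v 0 + x 1 * v 1 + x 2 * v 2) * v 2) * h1 +
        ((x 0 ^ 2 + x 1 ^ 2 + x 2 ^ 2) * v 2 - (x 0 * v 0 + x 1 * v 1 + x 2 * v 2) * x 2) * h2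
  ext i
  rw [PiLp.smul_apply, smul_eq_mul, div_mul_eq_mul_div, eq_div_iff hn.ne', ← key i]
  ring

/-- the graph of a field is cut once, at each of its points, by the orbit of the rotations about the
base point -/
theorem cut_of_graph {r : ℝ} (hr : 0 < r) {U : Set E3} {V : E3 → E3} (hV : IsField1 r U V)
    {M : Set (E3 × E3)} (hS : IsSurf1 r M) (hG : GraphOver U V M) {x : E3} (hxU : x ∈ U)
    (hx : ‖x‖ = 1) : CutOnce r M x (x, V x) := by
  obtain ⟨hU, -, hVs, hT⟩ := hV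
  have hPM : (x, V x) ∈ M := (hG x hxU hx _).2 rfl
  refine ⟨hx, hPM, ?_, ?_⟩
  · intro t ht
    have e1 : orb x t (x, V x) = (x, rot x t (V x)) := by
      show (rot x t x, rot x t (V x)) = _
      rw [rot_self hx]
    rw [e1] at ht ⊢
    rw [(hG x hxU hx _).1 ht]
  obtain ⟨W, f, hWo, hPW, hf, hz, a, ha, hfa⟩ := hS.2 _ hPM
  refine ⟨W, f, hWo, hPW, hf, hz, ?_⟩
  intro hzero
  rw [crs_self] at hzero
  simp only at hzero
  set P : E3 × E3 := (x, V x) with hP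
  have hPT : P ∈ TS r := hS.1 hPM
  have hfd : DifferentiableAt ℝ f P :=
    ((hf _ hPW).contDiffAt (hWo.mem_nhds hPW)).differentiableAt (by simp)
  set L := fderiv ℝ V x with hL
  have hVd : HasFDerivAt V L x :=
    (((hVs _ hxU).contDiffAt (hU.mem_nhds hxU)).differentiableAt (by simp)).hasFDerivAt
  obtain ⟨hcd, hcn⟩ := curve_deriv hx ha.1
  set γ : ℝ → E3 := fun t => (√(1 + t ^ 2 * ‖a.1‖ ^ 2))⁻¹ • (x + t • a.1) with hγ
  have hγ0 : γ 0 = x := by simp [hγ]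
  have hVγ : HasDerivAt (fun t => V (γ t)) (L a.1) 0 := by
    have h1 : HasFDerivAt V L (γ 0) := by rw [hγ0]; exact hVd
    exact h1.comp_hasDerivAt (0:ℝ) hcd
  have hγU : ∀ᶠ t in 𝓝 (0:ℝ), γ t ∈ U := by
    apply hcd.continuousAt.eventually
    rw [hγ0]
    exact hU.mem_nhds hxU
  have hpair : HasDerivAt (fun t => (γ t, V (γ t))) (a.1, L a.1) 0 := hcd.prodMk hVγ
  have hP0 : (γ 0, V (γ 0)) = P := by rw [hγ0]
  have htan : IsTan P (a.1, L a.1) := by
    refine ⟨ha.1, ?_, ?_⟩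
    · have h1 := hVγ.inner ℝ hVγ
      have h2 : (fun t => ⟪V (γ t), V (γ t)⟫_ℝ) =ᶠ[𝓝 0] fun _ => r ^ 2 := by
        filter_upwards [hγU] with t ht
        rw [real_inner_self_eq_norm_sq, (hT _ ht (hcn t)).2]
      have h3 := (h1.congr_of_eventuallyEq h2.symm).unique (hasDerivAt_const (0:ℝ) (r ^ 2))
      rw [hγ0] at h3
      have h4 := real_inner_comm (V x) (L a.1)
      show ⟪V x, L a.1⟫_ℝ = 0
      linarith
    · have h1 := hcd.inner ℝ hVγ
      have h2 : (fun t => ⟪γ t, V (γ t)⟫_ℝ) =ᶠ[𝓝 0] fun _ => (0:ℝ) := by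
        filter_upwards [hγU] with t ht
        exact (hT _ ht (hcn t)).1
      have h3 := (h1.congr_of_eventuallyEq h2.symm).unique (hasDerivAt_const (0:ℝ) (0:ℝ))
      rw [hγ0] at h3
      show ⟪a.1, V x⟫_ℝ + ⟪x, L a.1⟫_ℝ = 0
      linarith
  have hhor : fderiv ℝ f P (a.1, L a.1) = 0 := by
    have hfd' : HasFDerivAt f (fderiv ℝ f P) (γ 0, V (γ 0)) := by rw [hP0]; exact hfd.hasFDerivAt
    have h1 := hfd'.comp_hasDerivAt (0:ℝ) hpair
    have h2 : (f ∘ fun t => (γ t, V (γ t))) =ᶠ[𝓝 0] fun _ => (0:ℝ) := by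
      have h3 : Tendsto (fun t => (γ t, V (γ t))) (𝓝 0) (𝓝 P) := by
        have := hpair.continuousAt.tendsto
        rwa [hP0] at this
      filter_upwards [hγU, h3.eventually (hWo.mem_nhds hPW)] with t ht hl
      have hTS : (γ t, V (γ t)) ∈ TS r := ⟨hcn t, (hT _ ht (hcn t)).1, (hT _ ht (hcn t)).2⟩
      exact (hz _ hl hTS).1 ((hG _ ht (hcn t) _).2 rfl)
    exact (h1.congr_of_eventuallyEq h2.symm).unique (hasDerivAt_const (0:ℝ) (0:ℝ))
  apply hfa
  set u := a.2 - L a.1 with hu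
  have hsplit : a = (a.1, L a.1) + (0, u) := by
    apply Prod.ext
    · simp
    · simp [hu]
  have hu1 : ⟪x, u⟫_ℝ = 0 := by
    rw [hu, inner_sub_right]
    have h1 := ha.2.2
    have h2 := htan.2.2
    simp only [hP] at h1 h2
    linarith
  have hu2 : ⟪V x, u⟫_ℝ = 0 := by
    rw [hu, inner_sub_right]
    have h1 := ha.2.1
    have h2 := htan.2.1
    simp only [hP] at h1 h2
    linarith
  have hVne : V x ≠ 0 := by
    intro h0
    have h1 := (hT x hxU hx).2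
    rw [h0, norm_zero] at h1
    exact hr.ne h1
  obtain ⟨c, hc⟩ := perp_crs hx hVne (hT x hxU hx).1 hu1 hu2
  have h0u : ((0, u) : E3 × E3) = c • ((0, crs x (V x)) : E3 × E3) := by
    rw [Prod.smul_mk, smul_zero, ← hc]
  rw [hsplit, map_add, hhor, h0u, map_smul, hzero, smul_zero, add_zero]

/-- over the domain of a field the closure of its graph is the graph -/
theorem graph_sig {r : ℝ} {U : Set E3} {V : E3 → E3} (hV : IsField1 r U V) :
    GraphOver U V (Sig U V) := by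
  obtain ⟨hU, -, hVs, -⟩ := hV
  intro x hxU hx v
  constructor
  · intro hp
    by_contra hne
    have hVc : ContinuousAt V x := (hVs.continuousOn).continuousAt (hU.mem_nhds hxU)
    have hc : ContinuousAt (fun z : E3 × E3 => z.2 - V z.1) (x, v) := by
      have : ContinuousAt (fun z : E3 × E3 => V z.1) (x, v) :=
        ContinuousAt.comp (f := fun z : E3 × E3 => z.1) (g := V) hVc continuousAt_fst
      exact continuousAt_snd.sub this
    have h2 : ∀ᶠ z in 𝓝 (x, v), z.2 - V z.1 ≠ 0 :=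
      hc.eventually (isOpen_ne.mem_nhds (sub_ne_zero.2 hne))
    have h3 := mem_closure_iff_frequently.1 hp
    obtain ⟨z, hz, hz2⟩ := (h3.and_eventually h2).exists
    exact hz2 (sub_eq_zero.2 hz.2.2)
  · rintro rfl
    exact mem_sig hxU hx

end Pool.Agent.Y713.CR
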