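import Pool.Agent.Y713.CR.Fin
import Pool.Agent.Y713.CR.Gra
import Pool.Agent.Y713.CR.Cls2

open Set Filter Topology MeasureTheory
open scoped ContDiff InnerProductSpace ENNReal

namespace Pool.Agent.Y713.CR

open Pool.Agent.Helper28.Cr

/-- minimality, and the case of equality -/
theorem main_area {r : ℝ} (hr : 0 < r) {M : Set (E3 × E3)} (hc : IsClosed M) (hS : IsSurf1 r M)
    (hB : Blocks r M) {a b : E3} (hab : Orth a b) :
    area (SigP r a b) ≠ ⊤ ∧ area (SigP r a b) ≤ area M ∧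
      (area M = area (SigP r a b) ↔ ∃ a' b' : E3, Orth a' b' ∧ M = SigP r a' b') := by
  have h1 := area_P_le hr hab.1 hab.2.1 hab.2.2
  have hmeet := meet_of_blocks hr hB
  have h2 := area_ge hr hS hc hmeet
  refine ⟨ne_top_of_le_ne_top (ENNReal.div_ne_top (MM_int hr) C0_ne_zero) h1, h1.trans h2, ?_⟩
  constructor
  · intro h
    obtain ⟨p, hp, hpl⟩ := eq_plane hr hS hc hmeet (h ▸ h1)
    exact eq_sigP hr hS.1 hp hpl
  · rintro ⟨a', b', h', rfl⟩
    exact area_SigP hr hab h'

/-- a field whose graph lies in `Σ_{r P}` in the strong sense is a parallel transport field -/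
theorem pf_of_graph {r : ℝ} (hr : 0 < r) {U : Set E3} {V : E3 → E3} {a b : E3} (hab : Orth a b)
    (hG : GraphOver U V (SigP r a b)) {x : E3} (hxU : x ∈ U) (hx : ‖x‖ = 1) :
    x ≠ -a ∧ V x = r • Pf a b x := by
  obtain ⟨ha, hb, hab'⟩ := hab
  have hne : x ≠ -a := by
    rintro rfl
    -- two vectors over `-a`
    have hc : ‖crs a b‖ = 1 := by
      have h1 : ‖crs a b‖ ^ 2 = 1 := by
        have e1 := unit3 ha
        have e2 := unit3 hb
        rw [inner3] at hab'
        rw [nsq3, crs0, crs1, crs2]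
        linear_combination (b 0 ^ 2 + b 1 ^ 2 + b 2 ^ 2) * e1 + e2 -
          (a 0 * b 0 + a 1 * b 1 + a 2 * b 2) * hab'
      nlinarith [norm_nonneg (crs a b)]
    have hca : ⟪crs a b, a⟫_ℝ = 0 := by
      rw [inner3, crs0, crs1, crs2]; ring
    have hcb : ⟪crs a b, b⟫_ℝ = 0 := by
      rw [inner3, crs0, crs1, crs2]; ring
    have hba : ⟪b, a⟫_ℝ = 0 := by rw [real_inner_comm]; exact hab'
    have hbb : ⟪b, b⟫_ℝ = 1 := by rw [real_inner_self_eq_norm_sq, hb]; norm_num
    have k1 : Kp r a b b = (-a, -(r • b)) := by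
      unfold Kp
      rw [hba, hbb]
      apply Prod.ext
      · simp
      · show r • (b - (2 * 1 : ℝ) • b) = -(r • b)
        rw [mul_one, two_smul, ← smul_neg]
        congr 1
        abel
    have k2 : Kp r a b (crs a b) = (-a, r • b) := by
      unfold Kp
      rw [hca, hcb]
      apply Prod.ext <;> simp
    have g1 : (-a, -(r • b)) ∈ SigP r a b := by
      rw [sigP_eq hr ⟨ha, hb, hab'⟩, ← k1]
      exact ⟨b, hb, rfl⟩
    have g2 : (-a, r • b) ∈ SigP r a b := by
      rw [sigP_eq hr ⟨ha, hb, hab'⟩, ← k2]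
      exact ⟨crs a b, hc, rfl⟩
    have g3 := (hG _ hxU hx _).1 g1
    have g4 := (hG _ hxU hx _).1 g2
    rw [← g4] at g3
    have g5 : r • b = 0 := by
      have h2 : (2:ℝ) • (r • b) = 0 := by
        rw [two_smul]
        nth_rewrite 1 [← g3]
        simp
      exact (smul_eq_zero.1 h2).resolve_left (by norm_num)
    rcases smul_eq_zero.1 g5 with h | h
    · exact hr.ne' h
    · rw [h, norm_zero] at hb
      norm_num at hb
  refine ⟨hne, ?_⟩
  symm
  apply (hG x hxU hx _).1
  exact subset_closure ⟨hne, hx, rfl⟩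

lemma surf1_of_surf {r : ℝ} {S : Set (E3 × E3)} (h : IsSurf r S) : IsSurf1 r S := by
  refine ⟨h.1, fun p hp => ?_⟩
  obtain ⟨W, f, h1, h2, h3, h4⟩ := h.2 p hp
  exact ⟨W, f, h1, h2, h3.of_le (by simp), h4⟩

lemma field1_of_field {r : ℝ} {U : Set E3} {V : E3 → E3} (h : IsField r U V) : IsField1 r U V := by
  obtain ⟨h1, h2, h3, h4⟩ := h
  refine ⟨h1, ?_, h3.of_le (by simp), h4⟩
  have hne : (Metric.sphere (0:E3) 1).Nonempty := NormedSpace.sphere_nonempty.2 zero_le_one
  exact closure_nonempty_iff.1 (hne.mono h2)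

end Pool.Agent.Y713.CR
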