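import Pool.Agent.Y713.CR.Orb
import Pool.Agent.Helper28.CrFlux2

open Set Filter Topology MeasureTheory
open scoped ContDiff InnerProductSpace ENNReal

namespace Pool.Agent.Y713.CR

open Pool.Agent.Helper28.Cr

lemma nq_comb {w : E3} (hw : ‖w‖ = 1) (s t : ℝ) (q : Q4) :
    nq (s • qm ![0, w 0, w 1, w 2] q + t • q) = (s ^ 2 + t ^ 2) * nq q := by
  have h1 := unit3 hw
  simp only [nq, qm, Pi.add_apply, Pi.smul_apply, smul_eq_mul, Matrix.cons_val_zero,
    Matrix.cons_val_one, Matrix.cons_val]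
  linear_combination (s ^ 2 * (q 0 ^ 2 + q 1 ^ 2 + q 2 ^ 2 + q 3 ^ 2)) * h1

lemma ind_lq {w : E3} (hw : ‖w‖ = 1) {q : Q4} (hq : q ≠ 0) :
    Ind (qm ![0, w 0, w 1, w 2] q) q := by
  intro s t hst
  have h1 := nq_comb hw s t q
  rw [hst] at h1
  have h2 : nq (0 : Q4) = 0 := by simp [nq]
  rw [h2] at h1
  have h3 : s ^ 2 + t ^ 2 = 0 := by
    rcases mul_eq_zero.1 h1.symm with h | h
    · exact h
    · exact absurd h (nq_pos hq).ne'
  constructor <;> nlinarith [sq_nonneg t, sq_nonneg s]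

lemma isTan_crs (w : E3) (p : E3 × E3) : IsTan p (crs w p.1, crs w p.2) := by
  refine ⟨?_, ?_, ?_⟩ <;> simp only [inner3, crs0, crs1, crs2] <;> ring

/-- a closed surface which is cut once by some orbit meets all the planes -/
theorem planes_of_cut {r : ℝ} (hr : 0 < r) {M : Set (E3 × E3)} (hM : IsClosed M)
    (hS : IsSurf1 r M) {w : E3} {P : E3 × E3} (hc : CutOnce r M w P) {p q : Q4} (hpq : Ind p q) :
    ∃ t : ℝ, Real.cos t • p + Real.sin t • q ∈ hat r M := by
  obtain ⟨hw, hP, honce, W, f, hWo, hPW, hf, hz, hfv⟩ := hc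
  have hTS := hS.1 hP
  obtain ⟨q₀, hq₀, hpr⟩ := pr_surj hr hTS
  have hmem : q₀ ∈ hat r M := ⟨hq₀, by rw [hpr]; exact hP⟩
  have hind := ind_lq hw hq₀
  have hPW' : pr r q₀ ∈ W := by rw [hpr]; exact hPW
  have htan : IsTan (pr r q₀) (crs w P.1, crs w P.2) := by rw [hpr]; exact isTan_crs w P
  obtain ⟨D', hD', hDf'⟩ := hat_LCf hr hmem hWo hPW' hf hz htan (by rw [hpr]; exact hfv)
  refine top_step (S := hat r M) (p₀ := qm ![0, w 0, w 1, w 2] q₀) (q₀ := q₀)
    (fun q hq h => hat_closed hM hq h) (fun q hq => hat_neg hq)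
    (fun q hq => by
      obtain ⟨D, hD, -⟩ := hat_LC hr hS hq
      exact ⟨D, hD⟩) hind ?_ hmem ?_ hpq
  · intro t ht hmemt
    have e1 : Real.cos (Real.pi * t) • qm ![0, w 0, w 1, w 2] q₀ + Real.sin (Real.pi * t) • q₀ =
        lq w (Real.pi / 2 - Real.pi * t) q₀ := by
      unfold lq
      rw [Real.cos_pi_div_two_sub, Real.sin_pi_div_two_sub, add_comm]
    have h1 : orb w (2 * (Real.pi / 2 - Real.pi * t)) P ∈ M := by
      rw [← hpr, ← pr_lq hw, ← e1]
      exact hmemt.2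
    have h2 := honce _ h1
    have heq : pr r q₀ = pr r (Real.cos (Real.pi * t) • qm ![0, w 0, w 1, w 2] q₀ +
        Real.sin (Real.pi * t) • q₀) := by
      rw [e1, pr_lq hw, hpr, h2]
    obtain ⟨c, -, hc⟩ := pr_inj hr.ne' hq₀ hmemt.1 heq
    have h3 : Real.cos (Real.pi * t) • qm ![0, w 0, w 1, w 2] q₀ +
        (Real.sin (Real.pi * t) - c) • q₀ = 0 := by
      rw [sub_smul, ← hc]; abel
    have h4 := (hind _ _ h3).1
    rw [Real.cos_eq_zero_iff] at h4
    obtain ⟨k, hk⟩ := h4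
    have hpi := Real.pi_pos
    have h5 : t = (2 * k + 1) / 2 := by
      have : Real.pi * t = Real.pi * ((2 * k + 1) / 2) := by rw [hk]; ring
      exact mul_left_cancel₀ hpi.ne' this
    have h6 : (k:ℝ) = 0 := by
      have a1 := ht.1
      have a2 := ht.2
      rw [h5] at a1 a2
      have b1 : (-1:ℝ) < k := by linarith
      have b2 : (k:ℝ) < 1 := by linarith
      have b3 : (-1:ℤ) < k := by exact_mod_cast b1
      have b4 : k < 1 := by exact_mod_cast b2
      have : k = 0 := by omega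
      exact_mod_cast this
    rw [h5, h6]; norm_num
  · intro D hD hzero
    have h1 := ker_indep D D' hD hD' hmem hzero
    have hfd : DifferentiableAt ℝ f (pr r q₀) :=
      ((hf _ hPW').contDiffAt (hWo.mem_nhds hPW')).differentiableAt (by simp)
    have h2 : fderiv ℝ D'.f q₀ = (fderiv ℝ f (pr r q₀)).comp (fderiv ℝ (pr r) q₀) := by
      rw [hDf']
      exact (hfd.hasFDerivAt.comp q₀ ((cd_pr r hq₀).differentiableAt (by simp)).hasFDerivAt).fderiv
    rw [h2, ContinuousLinearMap.comp_apply, pr_deriv_lq hw r hq₀, map_smul, hpr, smul_eq_mul] at h1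
    exact hfv ((mul_eq_zero.1 h1).resolve_left (by norm_num))

/-- a closed surface which is cut once by some orbit meets all the orbits -/
theorem blocks_of_cut {r : ℝ} (hr : 0 < r) {M : Set (E3 × E3)} (hM : IsClosed M)
    (hS : IsSurf1 r M) {w : E3} {P : E3 × E3} (hc : CutOnce r M w P) : Blocks r M := by
  intro w' hw' p hp
  obtain ⟨q, hq, rfl⟩ := pr_surj hr hp
  have hind : Ind q (qm ![0, w' 0, w' 1, w' 2] q) := (ind_lq hw' hq).symm
  obtain ⟨t, ht⟩ := planes_of_cut hr hM hS hc hind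
  refine ⟨2 * t, ?_⟩
  rw [← pr_lq hw']
  exact ht.2

lemma rel_mul {ζ y : Fin 3 → ℝ} {A : Q4} (h : Rel ζ y A) {w : E3} {ρ : ℝ}
    (hy : ∀ i, y i = ρ * w i) : Rel ζ y (qm ![0, w 0, w 1, w 2] A) := by
  obtain ⟨e0, e1, e2, e3⟩ := h.coord
  rw [hy 0, hy 1, hy 2] at e0 e1 e2 e3
  apply rel_of_coord <;>
    simp only [qm, Matrix.cons_val_zero, Matrix.cons_val_one, Matrix.cons_val, hy 0, hy 1, hy 2]
  · linear_combination (-w 0) * e1 + (-w 1) * e2 + (-w 2) * e3
  · linear_combination w 0 * e0 + w 1 * e3 - w 2 * e2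
  · linear_combination (-w 0) * e3 + w 1 * e0 + w 2 * e1
  · linear_combination w 0 * e2 - w 1 * e1 + w 2 * e0

/-- a surface which meets all the orbits -/
theorem meet_of_blocks {r : ℝ} (hr : 0 < r) {M : Set (E3 × E3)} (hB : Blocks r M)
    (ζ y : Fin 3 → ℝ) (h1 : n2 y = n2 ζ) (h2 : y + ζ ≠ 0) : ∃ p ∈ M, G r ζ p = y := by
  obtain ⟨A, B, hAB, hA, -⟩ := rel_exists (ζ := ζ) (y := y) h1 h2
  have hA0 : A ≠ 0 := by
    rintro rfl
    have := (hAB 1 0 (by simp)).1
    norm_num at this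
  have hy0 : n2 y ≠ 0 := by
    intro h0
    apply h2
    have h3 : n2 ζ = 0 := by rw [← h1, h0]
    have key : ∀ v : Fin 3 → ℝ, n2 v = 0 → v = 0 := by
      intro v hv
      unfold n2 at hv
      have a0 : v 0 = 0 := by
        have : v 0 ^ 2 = 0 := le_antisymm
          (by linarith [sq_nonneg (v 1), sq_nonneg (v 2)]) (sq_nonneg _)
        exact pow_eq_zero_iff (two_ne_zero) |>.1 this
      have a1 : v 1 = 0 := by
        have : v 1 ^ 2 = 0 := le_antisymm
          (by linarith [sq_nonneg (v 0), sq_nonneg (v 2)]) (sq_nonneg _)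
        exact pow_eq_zero_iff (two_ne_zero) |>.1 this
      have a2 : v 2 = 0 := by
        have : v 2 ^ 2 = 0 := le_antisymm
          (by linarith [sq_nonneg (v 0), sq_nonneg (v 1)]) (sq_nonneg _)
        exact pow_eq_zero_iff (two_ne_zero) |>.1 this
      ext i
      fin_cases i
      · exact a0
      · exact a1
      · exact a2
    rw [key y h0, key ζ h3, add_zero]
  have hypos : 0 < n2 y := by
    have : 0 ≤ n2 y := by unfold n2; positivity
    exact lt_of_le_of_ne this (Ne.symm hy0)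
  set ρ := √(n2 y) with hρ
  have hρ0 : 0 < ρ := Real.sqrt_pos.2 hypos
  set w : E3 := !₂[y 0 / ρ, y 1 / ρ, y 2 / ρ] with hwd
  have hw0 : w 0 = y 0 / ρ := by simp [hwd]
  have hw1 : w 1 = y 1 / ρ := by simp [hwd]
  have hw2 : w 2 = y 2 / ρ := by simp [hwd]
  have hρ2 : ρ ^ 2 = n2 y := Real.sq_sqrt hypos.le
  have hw : ‖w‖ = 1 := by
    have : ‖w‖ ^ 2 = 1 := by
      rw [nsq3, hw0, hw1, hw2, div_pow, div_pow, div_pow, ← add_div, ← add_div, hρ2]
      unfold n2 at hy0 ⊢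
      exact div_self hy0
    nlinarith [norm_nonneg w]
  have hyw : ∀ i, y i = ρ * w i := by
    intro i
    fin_cases i
    · show y 0 = ρ * w 0
      rw [hw0]; field_simp
    · show y 1 = ρ * w 1
      rw [hw1]; field_simp
    · show y 2 = ρ * w 2
      rw [hw2]; field_simp
  obtain ⟨t, ht⟩ := hB w hw (pr r A) (pr_mem hr hA0)
  refine ⟨_, ht, ?_⟩
  have e1 : orb w t (pr r A) = pr r (lq w (t / 2) A) := by
    rw [pr_lq hw, show 2 * (t / 2) = t by ring]
  rw [e1]
  apply G_pr hr.ne' (lq_ne hw _ hA0)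
  exact hA.comb (rel_mul hA hyw) _ _

end Pool.Agent.Y713.CR
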