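import Pool.Agent.Y713.CR.Iso
import Pool.Agent.Y713.CR.Meet

open Set Filter Topology MeasureTheory
open scoped ContDiff InnerProductSpace ENNReal

namespace Pool.Agent.Y713.CR

open Pool.Agent.Helper28.Cr

/-- the symmetric matrix `4 q qᵀ / |q|²` as a function of the point `P` covered by `q` -/
noncomputable def TT (r : ℝ) (P : E3 × E3) : Fin 4 → Fin 4 → ℝ :=
  ![![1 + P.1 0 + P.2 1 / r + crs P.1 P.2 2 / r, P.2 2 / r - crs P.1 P.2 1 / r,
      crs P.1 P.2 0 / r - P.1 2, P.1 1 - P.2 0 / r],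
    ![P.2 2 / r - crs P.1 P.2 1 / r, 1 + P.1 0 - P.2 1 / r - crs P.1 P.2 2 / r,
      P.1 1 + P.2 0 / r, P.1 2 + crs P.1 P.2 0 / r],
    ![crs P.1 P.2 0 / r - P.1 2, P.1 1 + P.2 0 / r,
      1 - P.1 0 + P.2 1 / r - crs P.1 P.2 2 / r, P.2 2 / r + crs P.1 P.2 1 / r],
    ![P.1 1 - P.2 0 / r, P.1 2 + crs P.1 P.2 0 / r, P.2 2 / r + crs P.1 P.2 1 / r,
      1 - P.1 0 - P.2 1 / r + crs P.1 P.2 2 / r]]

lemma crs_c (q : Q4) (k : Fin 3) : crs (c1 q) (c2 q) k = nq q * c3 q k := by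
  fin_cases k
  · show crs (c1 q) (c2 q) 0 = nq q * c3 q 0
    rw [crs0]
    simp only [c1, c2, c3, nq, WithLp.ofLp_toLp, Matrix.cons_val_zero, Matrix.cons_val_one,
      Matrix.cons_val]
    ring
  · show crs (c1 q) (c2 q) 1 = nq q * c3 q 1
    rw [crs1]
    simp only [c1, c2, c3, nq, WithLp.ofLp_toLp, Matrix.cons_val_zero, Matrix.cons_val_one,
      Matrix.cons_val]
    ring
  · show crs (c1 q) (c2 q) 2 = nq q * c3 q 2
    rw [crs2]
    simp only [c1, c2, c3, nq, WithLp.ofLp_toLp, Matrix.cons_val_zero, Matrix.cons_val_one,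
      Matrix.cons_val]
    ring

lemma crs_smul2 (s t : ℝ) (x y : E3) (k : Fin 3) : crs (s • x) (t • y) k = s * t * crs x y k := by
  fin_cases k
  · show crs (s • x) (t • y) 0 = s * t * crs x y 0
    rw [crs0, crs0]; simp only [PiLp.smul_apply, smul_eq_mul]; ring
  · show crs (s • x) (t • y) 1 = s * t * crs x y 1
    rw [crs1, crs1]; simp only [PiLp.smul_apply, smul_eq_mul]; ring
  · show crs (s • x) (t • y) 2 = s * t * crs x y 2
    rw [crs2, crs2]; simp only [PiLp.smul_apply, smul_eq_mul]; ring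

lemma TT_pr {r : ℝ} (hr : r ≠ 0) {q : Q4} (hq : q ≠ 0) (i j : Fin 4) :
    TT r (pr r q) i j = 4 * q i * q j / nq q := by
  have hn := (nq_pos hq).ne'
  have h1 : ∀ k, (pr r q).1 k = c1 q k / nq q := by
    intro k
    show ((nq q)⁻¹ • c1 q) k = _
    rw [PiLp.smul_apply, smul_eq_mul, inv_mul_eq_div]
  have h2 : ∀ k, (pr r q).2 k / r = c2 q k / nq q := by
    intro k
    show ((r * (nq q)⁻¹) • c2 q) k / r = _
    rw [PiLp.smul_apply, smul_eq_mul]
    field_simp
  have h3 : ∀ k, crs (pr r q).1 (pr r q).2 k / r = c3 q k / nq q := by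
    intro k
    show crs ((nq q)⁻¹ • c1 q) ((r * (nq q)⁻¹) • c2 q) k / r = _
    rw [crs_smul2, crs_c]
    field_simp
  have e1 : (1:ℝ) = nq q / nq q := (div_self hn).symm
  unfold TT
  simp only [h1, h2, h3]
  rw [e1]
  simp only [← add_div, ← sub_div]
  fin_cases i <;> fin_cases j <;>
    simp only [Fin.zero_eta, Fin.mk_one, Fin.reduceFinMk, Matrix.cons_val_zero,
      Matrix.cons_val_one, Matrix.cons_val] <;>
    congr 1 <;>
    simp only [c1, c2, c3, nq, WithLp.ofLp_toLp, Matrix.cons_val_zero, Matrix.cons_val_one,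
      Matrix.cons_val] <;>
    ring

lemma cd_TT (r : ℝ) (i j : Fin 4) : ContDiff ℝ ∞ (fun P : E3 × E3 => TT r P i j) := by
  have hc : ∀ k, ContDiff ℝ ∞ (fun P : E3 × E3 => crs P.1 P.2 k) := by
    intro k
    fin_cases k
    · show ContDiff ℝ ∞ (fun P : E3 × E3 => crs P.1 P.2 0)
      simp only [crs0]; fun_prop
    · show ContDiff ℝ ∞ (fun P : E3 × E3 => crs P.1 P.2 1)
      simp only [crs1]; fun_prop
    · show ContDiff ℝ ∞ (fun P : E3 × E3 => crs P.1 P.2 2)
      simp only [crs2]; fun_prop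
  have hc0 := hc 0
  have hc1 := hc 1
  have hc2 := hc 2
  unfold TT
  fin_cases i <;> fin_cases j <;>
    simp only [Fin.zero_eta, Fin.mk_one, Fin.reduceFinMk, Matrix.cons_val_zero,
      Matrix.cons_val_one, Matrix.cons_val] <;>
    fun_prop

end Pool.Agent.Y713.CR
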