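import Pool.Agent.Helper28.CrDef

open Set MeasureTheory
open scoped ContDiff InnerProductSpace ENNReal

namespace Pool.Agent.Y713.CR

open Pool.Agent.Helper28.Cr

/-- `S` is an embedded surface of class `C¹` without boundary in `T^r S^2`: near each of its points
it is the zero set, in `T^r S^2`, of a `C¹` function whose differential at the point does not vanish
on the tangent space of `T^r S^2` -/
def IsSurf1 (r : ℝ) (S : Set (E3 × E3)) : Prop :=
  S ⊆ TS r ∧ ∀ p ∈ S, ∃ (W : Set (E3 × E3)) (f : E3 × E3 → ℝ), IsOpen W ∧ p ∈ W ∧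
    ContDiffOn ℝ 1 f W ∧ (∀ q ∈ W, q ∈ TS r → (q ∈ S ↔ f q = 0)) ∧
    ∃ a, IsTan p a ∧ fderiv ℝ f p a ≠ 0

/-- the cross product -/
noncomputable def crs (w x : E3) : E3 :=
  !₂[w 1 * x 2 - w 2 * x 1, w 2 * x 0 - w 0 * x 2, w 0 * x 1 - w 1 * x 0]

/-- the rotation of `ℝ³` about the unit vector `w` through the angle `t` -/
noncomputable def rot (w : E3) (t : ℝ) (x : E3) : E3 :=
  Real.cos t • x + Real.sin t • crs w x + ((1 - Real.cos t) * ⟪w, x⟫_ℝ) • w

/-- the rotation about `w` through the angle `t`, acting on the tangent vectors `(x, v)` of the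
sphere -/
noncomputable def orb (w : E3) (t : ℝ) (p : E3 × E3) : E3 × E3 := (rot w t p.1, rot w t p.2)

/-- `S` meets all the orbits in `T^r S^2` of all the one-parameter groups of rotations of `ℝ³`. -/
def Blocks (r : ℝ) (S : Set (E3 × E3)) : Prop :=
  ∀ w : E3, ‖w‖ = 1 → ∀ p ∈ TS r, ∃ t : ℝ, orb w t p ∈ S

/-- The orbit of `p`, for the rotations about `w`, meets `S` in the single point `p`, and there
transversally: `f` is a local equation of `S` and `(w × x, w × v)` is the velocity of the orbit. -/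
def CutOnce (r : ℝ) (S : Set (E3 × E3)) (w : E3) (p : E3 × E3) : Prop :=
  ‖w‖ = 1 ∧ p ∈ S ∧ (∀ t : ℝ, orb w t p ∈ S → orb w t p = p) ∧
    ∃ (W : Set (E3 × E3)) (f : E3 × E3 → ℝ), IsOpen W ∧ p ∈ W ∧ ContDiffOn ℝ 1 f W ∧
      (∀ q ∈ W, q ∈ TS r → (q ∈ S ↔ f q = 0)) ∧ fderiv ℝ f p (crs w p.1, crs w p.2) ≠ 0

/-- `V` is a `C¹` tangent field of constant length `r` on the nonempty open subset `U ∩ S²` of the
unit sphere `S²` -/
def IsField1 (r : ℝ) (U : Set E3) (V : E3 → E3) : Prop :=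
  IsOpen U ∧ (U ∩ Metric.sphere (0 : E3) 1).Nonempty ∧ ContDiffOn ℝ 1 V U ∧
    ∀ x ∈ U, ‖x‖ = 1 → ⟪x, V x⟫_ℝ = 0 ∧ ‖V x‖ = r

/-- The part of `S` over the subset `U ∩ S²` of the sphere is the graph of `V`. -/
def GraphOver (U : Set E3) (V : E3 → E3) (S : Set (E3 × E3)) : Prop :=
  ∀ x ∈ U, ‖x‖ = 1 → ∀ v : E3, (x, v) ∈ S ↔ v = V x

end Pool.Agent.Y713.CR
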