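import Pool.Agent.Y713.CR.Cover
import Pool.Agent.Helper28.CrEq1

open Set Filter Topology MeasureTheory
open scoped ContDiff InnerProductSpace ENNReal

namespace Pool.Agent.Y713.CR

open Pool.Agent.Helper28.Cr

lemma stab {X : Type*} [TopologicalSpace X] {S : Set Q4} (D : LC S) {q d : Q4} (hqS : q ∈ S)
    (hD : q ∈ D.W) (hd : fderiv ℝ D.f q d ≠ 0) {α β : X → Q4} {z₀ : X} (hα : ContinuousAt α z₀)
    (hβ : ContinuousAt β z₀) (hα0 : α z₀ = q) (hβ0 : β z₀ = d) {A : Set Q4} (hA : A ∈ 𝓝 q) :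
    ∀ᶠ z in 𝓝 z₀, ∃ σ : ℝ, α z + σ • β z ∈ S ∧ α z + σ • β z ∈ A := by
  have hF0 : D.f q = 0 := (D.ze q hD).1 hqS
  -- a small δ with a sign change
  have hsign : ∃ δ₀ : ℝ, 0 < δ₀ ∧ ∀ σ : ℝ, 0 < σ → σ < δ₀ → D.f (q + σ • d) * D.f (q + (-σ) • d) < 0 := by
    rcases lt_or_gt_of_ne hd with h | h
    · have hneg : 0 < fderiv ℝ (fun y => -(D.f y)) q d := by
        rw [fderiv_fun_neg]
        show 0 < -(fderiv ℝ D.f q d)
        linarith
      obtain ⟨c, hc, δ, hδ, H⟩ := mv ((D.cda1 hD).neg) hneg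
      refine ⟨δ, hδ, fun σ h0 h1 => ?_⟩
      have e1 := H q (by simpa using hδ) σ (by rw [abs_of_pos h0]; exact h1)
      have e2 := H q (by simpa using hδ) (-σ) (by rw [abs_neg, abs_of_pos h0]; exact h1)
      simp only [hF0, neg_zero, sub_zero] at e1 e2
      have k1 : D.f (q + σ • d) < 0 := by nlinarith [mul_pos hc (pow_pos h0 2)]
      have k2 : 0 < D.f (q + (-σ) • d) := by nlinarith [mul_pos hc (pow_pos h0 2)]
      exact mul_neg_of_neg_of_pos k1 k2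
    · obtain ⟨c, hc, δ, hδ, H⟩ := mv (D.cda1 hD) h
      refine ⟨δ, hδ, fun σ h0 h1 => ?_⟩
      have e1 := H q (by simpa using hδ) σ (by rw [abs_of_pos h0]; exact h1)
      have e2 := H q (by simpa using hδ) (-σ) (by rw [abs_neg, abs_of_pos h0]; exact h1)
      simp only [hF0, sub_zero] at e1 e2
      have k1 : 0 < D.f (q + σ • d) := by nlinarith [mul_pos hc (pow_pos h0 2)]
      have k2 : D.f (q + (-σ) • d) < 0 := by nlinarith [mul_pos hc (pow_pos h0 2)]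
      exact mul_neg_of_pos_of_neg k1 k2
  obtain ⟨δ₀, hδ₀, hs⟩ := hsign
  obtain ⟨ρ, hρ, hball⟩ := Metric.mem_nhds_iff.1 (Filter.inter_mem hA (D.op.mem_nhds hD))
  have hd0 : 0 ≤ ‖d‖ := norm_nonneg _
  set σ : ℝ := min (δ₀ / 2) (ρ / (4 * (1 + ‖d‖))) with hσ
  have hσ0 : 0 < σ := lt_min (by positivity) (by positivity)
  have hσ1 : σ < δ₀ := lt_of_le_of_lt (min_le_left _ _) (by linarith)
  have hσ2 : σ * ‖d‖ < ρ / 2 := by
    have h1 : σ ≤ ρ / (4 * (1 + ‖d‖)) := min_le_right _ _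
    have h2 : σ * ‖d‖ ≤ ρ / (4 * (1 + ‖d‖)) * ‖d‖ := mul_le_mul_of_nonneg_right h1 hd0
    have h3 : ρ / (4 * (1 + ‖d‖)) * ‖d‖ ≤ ρ / 4 := by
      rw [div_mul_eq_mul_div, div_le_div_iff₀ (by positivity) (by positivity)]
      nlinarith
    linarith
  have hneg := hs σ hσ0 hσ1
  have hmem : ∀ τ : ℝ, |τ| ≤ σ → q + τ • d ∈ D.W := by
    intro τ hτ
    apply (hball _).2
    rw [Metric.mem_ball, dist_eq_norm, add_sub_cancel_left, norm_smul, Real.norm_eq_abs]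
    have := mul_le_mul_of_nonneg_right hτ hd0
    linarith
  have hcomb : ∀ τ : ℝ, ContinuousAt (fun z => α z + τ • β z) z₀ := fun τ =>
    hα.add (hβ.const_smul τ)
  have hval : ∀ τ : ℝ, α z₀ + τ • β z₀ = q + τ • d := fun τ => by rw [hα0, hβ0]
  have hFc : ∀ τ : ℝ, |τ| ≤ σ → ContinuousAt (fun z => D.f (α z + τ • β z)) z₀ := by
    intro τ hτ
    have h1 : ContinuousAt D.f (α z₀ + τ • β z₀) := by
      rw [hval]; exact (D.cda (hmem τ hτ)).continuousAt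
    exact ContinuousAt.comp (f := fun z => α z + τ • β z) (g := D.f) h1 (hcomb τ)
  have e1 : ∀ᶠ z in 𝓝 z₀, D.f (α z + σ • β z) * D.f (α z + (-σ) • β z) < 0 := by
    have h1 := (hFc σ (by rw [abs_of_pos hσ0])).mul (hFc (-σ) (by rw [abs_neg, abs_of_pos hσ0]))
    apply h1.eventually (gt_mem_nhds _)
    show D.f (α z₀ + σ • β z₀) * D.f (α z₀ + (-σ) • β z₀) < 0
    rw [hval, hval]; exact hneg
  have e2 : ∀ᶠ z in 𝓝 z₀, dist (α z) q < ρ / 2 := by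
    have h1 : Tendsto α (𝓝 z₀) (𝓝 q) := by rw [← hα0]; exact hα
    exact h1.eventually (Metric.ball_mem_nhds _ (by positivity))
  have e3 : ∀ᶠ z in 𝓝 z₀, σ * ‖β z‖ < ρ / 2 := by
    have h1 : ContinuousAt (fun z => σ * ‖β z‖) z₀ := continuousAt_const.mul hβ.norm
    apply h1.eventually (gt_mem_nhds _)
    show σ * ‖β z₀‖ < ρ / 2
    rw [hβ0]; exact hσ2
  filter_upwards [e1, e2, e3] with z h1 h2 h3
  have hin : ∀ τ ∈ Icc (-σ) σ, α z + τ • β z ∈ A ∩ D.W := by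
    intro τ hτ
    apply hball
    rw [Metric.mem_ball]
    have hτ' : |τ| ≤ σ := abs_le.2 hτ
    calc dist (α z + τ • β z) q ≤ dist (α z + τ • β z) (α z) + dist (α z) q := dist_triangle _ _ _
      _ = |τ| * ‖β z‖ + dist (α z) q := by
          rw [dist_eq_norm (α z + τ • β z), add_sub_cancel_left, norm_smul, Real.norm_eq_abs]
      _ ≤ σ * ‖β z‖ + dist (α z) q := by gcongr
      _ < ρ := by linarith
  have hcon : ContinuousOn (fun τ : ℝ => D.f (α z + τ • β z)) (Icc (-σ) σ) := by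
    intro τ hτ
    have h4 : ContinuousAt D.f (α z + τ • β z) := (D.cda (hin τ hτ).2).continuousAt
    have h5 : ContinuousAt (fun τ : ℝ => α z + τ • β z) τ := by fun_prop
    exact (ContinuousAt.comp (f := fun τ : ℝ => α z + τ • β z) (g := D.f) h4 h5).continuousWithinAt
  have hle : -σ ≤ σ := by linarith
  have hroot : ∃ τ ∈ Icc (-σ) σ, D.f (α z + τ • β z) = 0 := by
    rcases mul_neg_iff.1 h1 with ⟨p1, p2⟩ | ⟨p1, p2⟩
    · obtain ⟨τ, hτ, h0⟩ := intermediate_value_Icc hle hcon ⟨p2.le, p1.le⟩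
      exact ⟨τ, hτ, h0⟩
    · obtain ⟨τ, hτ, h0⟩ := intermediate_value_Icc' hle hcon ⟨p1.le, p2.le⟩
      exact ⟨τ, hτ, h0⟩
  obtain ⟨τ, hτ, h0⟩ := hroot
  exact ⟨τ, (D.ze _ (hin τ hτ).2).2 h0, (hin τ hτ).1⟩

lemma near_meet {S : Set Q4} {p q : Q4} (hpS : p ∈ S) (D : LC S) (hD : p ∈ D.W)
    (hd : fderiv ℝ D.f p q ≠ 0) {ξ y : Fin 3 → ℝ} (hp : Rel ξ y p) (hq : Rel ξ y q)
    (hξ : n2 ξ ≠ 0) {A : Set Q4} (hA : A ∈ 𝓝 p) :
    ∀ᶠ z : (Fin 3 → ℝ) × (Fin 3 → ℝ) in 𝓝 (ξ, y), n2 z.1 = n2 z.2 →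
      ∃ x ∈ S, x ∈ A ∧ Rel z.1 z.2 x := by
  have h1 := stab D hpS hD hd (α := prj (2 * n2 ξ)⁻¹ p) (β := prj (2 * n2 ξ)⁻¹ q) (z₀ := (ξ, y))
    (prj_cont _ _).continuousAt (prj_cont _ _).continuousAt (prj_at hp hξ) (prj_at hq hξ) hA
  filter_upwards [h1] with z hz hn
  obtain ⟨σ, hσS, hσA⟩ := hz
  refine ⟨_, hσS, hσA, ?_⟩
  have := (prj_rel (2 * n2 ξ)⁻¹ p hn).comb (prj_rel (2 * n2 ξ)⁻¹ q hn) 1 σ
  rwa [one_smul] at this

end Pool.Agent.Y713.CR
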