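import Pool.Agent.Y713.CR.Top1

open Set Filter Topology MeasureTheory Asymptotics
open scoped ContDiff InnerProductSpace ENNReal

namespace Pool.Agent.Y713.CR

open Pool.Agent.Helper28.Cr

/-- translation invariance near a point, for surfaces of class `C¹` -/
lemma local_translate {S : Set Q4} {q p : Q4} (hq : q ∈ S) (D : LC S) (hD : q ∈ D.W)
    (hflat : ∀ᶠ x in 𝓝 q, x ∈ S → x ∈ D.W → fderiv ℝ D.f x p = 0) :
    ∀ᶠ s in 𝓝[>] (0:ℝ), q + s • p ∈ S := by
  have hf0 : D.f q = 0 := (D.ze q hD).1 hq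
  obtain ⟨ν, hν⟩ : ∃ ν, 0 < fderiv ℝ D.f q ν := by
    by_contra hn
    push Not at hn
    apply D.re q hD hq
    ext a
    have h1 := hn a
    have h2 := hn (-a)
    rw [map_neg] at h2
    simp only [_root_.zero_apply]
    linarith
  obtain ⟨c, hc, δ, hδ, H⟩ := mv (D.cda1 hD) hν
  obtain ⟨C, hC, hroot⟩ := root (D.cda1 hD) hf0 hν
  have hν0 : 0 ≤ ‖ν‖ := norm_nonneg _
  have hnear : ∀ᶠ x in 𝓝 q, x ∈ D.W ∧ (x ∈ S → x ∈ D.W → fderiv ℝ D.f x p = 0) := by
    filter_upwards [D.op.mem_nhds hD, hflat] with x h2 h3 using ⟨h2, h3⟩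
  obtain ⟨ρ, hρ, hball⟩ := Metric.eventually_nhds_iff.1 hnear
  set m := min δ ρ with hm
  have hm0 : 0 < m := lt_min hδ hρ
  set ε := m / (4 * (1 + ‖ν‖)) with hε
  have hε0 : 0 < ε := by positivity
  have hεν : ε * ‖ν‖ ≤ m / 4 := by
    rw [hε, div_mul_eq_mul_div, div_le_div_iff₀ (by positivity) (by positivity)]
    nlinarith
  have hεm : ε ≤ m / 4 := by
    rw [hε]
    apply div_le_div_of_nonneg_left hm0.le (by norm_num)
    linarith
  have h4 : ∀ᶠ x in 𝓝 q, C * |D.f x| < ε := by
    have hcont : ContinuousAt (fun x => C * |D.f x|) q :=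
      continuousAt_const.mul (D.cda hD).continuousAt.abs
    apply hcont.eventually (gt_mem_nhds _)
    simp only [hf0, abs_zero, mul_zero]
    exact hε0
  have h5 : ∀ᶠ x in 𝓝 q, dist x q < m / 4 := Metric.ball_mem_nhds q (by positivity)
  have hline : Tendsto (fun s : ℝ => q + s • p) (𝓝 0) (𝓝 q) := by
    have : Tendsto (fun s : ℝ => q + s • p) (𝓝 0) (𝓝 (q + (0:ℝ) • p)) :=
      Continuous.tendsto (by fun_prop) 0
    rwa [zero_smul, add_zero] at this
  obtain ⟨η, hη, hev⟩ := Metric.eventually_nhds_iff.1 (hline.eventually (hroot.and (h4.and h5)))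
  have hex : ∀ s : ℝ, ∃ σ : ℝ, |s| < η → |σ| ≤ C * |D.f (q + s • p)| ∧
      D.f (q + s • p + σ • ν) = 0 := by
    intro s
    by_cases hs : |s| < η
    · have h := (hev (by rwa [Real.dist_eq, sub_zero])).1
      obtain ⟨σ, hσ⟩ := h
      exact ⟨σ, fun _ => hσ⟩
    · exact ⟨0, fun h => absurd h hs⟩
  choose σ hσ using hex
  have hσε : ∀ s : ℝ, |s| < η → |σ s| < ε := fun s hs =>
    lt_of_le_of_lt (hσ s hs).1 (hev (by rwa [Real.dist_eq, sub_zero])).2.1
  have hd : ∀ s : ℝ, |s| < η → dist (q + s • p) q < m / 4 := fun s hs =>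
    (hev (y := s) (by rwa [Real.dist_eq, sub_zero])).2.2
  have hd2 : ∀ s s' : ℝ, |s| < η → |s'| < η → dist (q + s' • p + σ s • ν) q < m := by
    intro s s' hs hs'
    calc dist (q + s' • p + σ s • ν) q ≤ dist (q + s' • p + σ s • ν) (q + s' • p) +
          dist (q + s' • p) q := dist_triangle _ _ _
      _ = |σ s| * ‖ν‖ + dist (q + s' • p) q := by
          rw [dist_eq_norm, add_sub_cancel_left, norm_smul, Real.norm_eq_abs]
      _ ≤ ε * ‖ν‖ + dist (q + s' • p) q := by gcongr; exact (hσε s hs).le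
      _ ≤ m / 4 + dist (q + s' • p) q := by gcongr
      _ < m / 4 + m / 4 := by gcongr; exact hd s' hs'
      _ ≤ m := by linarith
  have hder : ∀ s : ℝ, |s| < η → HasDerivAt σ 0 s := by
    intro s hs
    set x := q + s • p + σ s • ν with hx
    have hxd : dist x q < ρ := (hd2 s s hs hs).trans_le (min_le_right _ _)
    obtain ⟨hxW, hxf⟩ := hball hxd
    have hxS : x ∈ S := (D.ze x hxW).2 (hσ s hs).2
    have hfx := hxf hxS hxW
    have hl : HasDerivAt (fun s' : ℝ => x + (s' - s) • p) p s := by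
      have := ((hasDerivAt_id s).sub_const s).smul_const p |>.const_add x
      simpa using this
    have hfd : HasFDerivAt D.f (fderiv ℝ D.f x) (x + (s - s) • p) := by
      rw [sub_self, zero_smul, add_zero]
      exact ((D.cda1 hxW).differentiableAt (by norm_num)).hasFDerivAt
    have hg := hfd.comp_hasDerivAt s hl
    rw [hfx] at hg
    have h1 := hasDerivAt_iff_isLittleO.1 hg
    rw [hasDerivAt_iff_isLittleO]
    refine IsBigO.trans_isLittleO (IsBigO.of_bound (1 / c) ?_) h1
    have hnb : ∀ᶠ s' in 𝓝 s, |s'| < η :=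
      (continuous_abs.continuousAt (x := s)).eventually (gt_mem_nhds hs)
    filter_upwards [hnb] with s' hs'
    simp only [Function.comp, sub_self, zero_smul, add_zero, smul_zero, sub_zero]
    have hfx0 : D.f x = 0 := (hσ s hs).2
    rw [hfx0, sub_zero]
    set y := x + (s' - s) • p with hy
    have hye : y = q + s' • p + σ s • ν := by
      rw [hy, hx, sub_smul]; abel
    have hyd : dist y q < δ := by
      rw [hye]
      exact (hd2 s s' hs hs').trans_le (min_le_left _ _)
    have hτ : |σ s' - σ s| < δ := by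
      calc |σ s' - σ s| ≤ |σ s'| + |σ s| := abs_sub _ _
        _ < ε + ε := add_lt_add (hσε s' hs') (hσε s hs)
        _ ≤ m / 4 + m / 4 := add_le_add hεm hεm
        _ < m := by linarith
        _ ≤ δ := min_le_left _ _
    have h2 := H y hyd (σ s' - σ s) hτ
    have h3 : y + (σ s' - σ s) • ν = q + s' • p + σ s' • ν := by
      rw [hye, sub_smul]; abel
    rw [h3, (hσ s' hs').2, zero_sub] at h2
    set τ := σ s' - σ s with hτd
    rw [Real.norm_eq_abs, Real.norm_eq_abs]
    have h6 : c * |τ| ^ 2 ≤ |τ| * |D.f y| := by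
      rw [sq_abs, ← abs_mul]
      calc c * τ ^ 2 ≤ τ * -D.f y := h2
        _ ≤ |τ * D.f y| := by
            rw [mul_neg]
            exact neg_le_abs _
    rcases eq_or_lt_of_le (abs_nonneg τ) with h7 | h7
    · rw [← h7]; positivity
    · rw [one_div, inv_mul_eq_div, le_div_iff₀ hc]
      have : |τ| * (c * |τ|) ≤ |τ| * |D.f y| := by nlinarith
      have := le_of_mul_le_mul_left this h7
      linarith
  have hconst : ∀ s ∈ Icc (0:ℝ) (η / 2), σ s = σ 0 := by
    apply constant_of_has_deriv_right_zero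
    · intro s hs
      exact (hder s (by rw [abs_of_nonneg hs.1]; linarith [hs.2])).continuousAt.continuousWithinAt
    · intro s hs
      exact (hder s (by rw [abs_of_nonneg hs.1]; linarith [hs.2])).hasDerivWithinAt
  have hσ0 : σ 0 = 0 := by
    have := (hσ 0 (by rw [abs_zero]; exact hη)).1
    rw [zero_smul, add_zero, hf0, abs_zero, mul_zero] at this
    exact abs_nonpos_iff.1 this
  have h6 : ∀ᶠ s in 𝓝[>] (0:ℝ), s < η / 2 := by
    have : ∀ᶠ s in 𝓝 (0:ℝ), s < η / 2 := gt_mem_nhds (by positivity)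
    exact this.filter_mono nhdsWithin_le_nhds
  filter_upwards [h6, self_mem_nhdsWithin] with s hs1 hs2
  have hs0 : 0 < s := hs2
  have hs : |s| < η := by rw [abs_of_pos hs0]; linarith
  have h7 : σ s = 0 := (hconst s ⟨hs0.le, hs1.le⟩).trans hσ0
  have h8 := (hσ s hs).2
  rw [h7, zero_smul, add_zero] at h8
  have hW : q + s • p ∈ D.W := (hball ((hd s hs).trans_le (by
    have := min_le_right δ ρ
    linarith))).1
  exact (D.ze _ hW).2 h8

end Pool.Agent.Y713.CR
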