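import Pool.Agent.Y713.CR.Eq2
import Pool.Agent.Y713.CR.Tra
import Pool.Agent.Helper28.CrEq3

open Set Filter Topology MeasureTheory
open scoped ContDiff InnerProductSpace ENNReal

namespace Pool.Agent.Y713.CR

open Pool.Agent.Helper28.Cr

theorem cone_flat {S : Set Q4} (hnz : ∀ q ∈ S, q ≠ 0)
    (hcone : ∀ q ∈ S, ∀ c : ℝ, c ≠ 0 → c • q ∈ S)
    (hcl : ∀ q, q ≠ 0 → q ∉ S → ∀ᶠ y in 𝓝 q, y ∉ S) (hloc : ∀ q ∈ S, ∃ D : LC S, q ∈ D.W)
    (hE1 : ∀ p ∈ S, ∀ q ∈ S, Ind p q → ∀ Dp : LC S, p ∈ Dp.W → ∀ Dq : LC S, q ∈ Dq.W →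
      fderiv ℝ Dp.f p q = 0 ∨ fderiv ℝ Dq.f q p = 0) (hne : S.Nonempty) :
    ∃ L : Q4 →L[ℝ] ℝ, L ≠ 0 ∧ ∀ q, q ∈ S ↔ q ≠ 0 ∧ L q = 0 := by
  -- non-parallel from the derivative
  have hind : ∀ p ∈ S, ∀ D : LC S, p ∈ D.W → ∀ q, fderiv ℝ D.f p q ≠ 0 → Ind p q := by
    intro p hp D hD q hq
    apply ind_of_notMem (hnz p hp)
    intro hm
    rw [Submodule.mem_span_singleton] at hm
    obtain ⟨a, rfl⟩ := hm
    apply hq
    rw [map_smul, cone_deriv hcone D hp hD, smul_zero]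
  have hE2 : ∀ p ∈ S, ∀ q ∈ S, ∀ D : LC S, p ∈ D.W → fderiv ℝ D.f p q = 0 := by
    intro p hp q hq D hD
    by_contra hc
    have hpq := hind p hp D hD q hc
    have hpp : fderiv ℝ D.f p p = 0 := cone_deriv hcone D hp hD
    have hne' : ∀ t : ℝ, q + t • p ≠ 0 := by
      intro t h0
      have := (hpq t 1 (by rw [one_smul, add_comm]; exact h0)).2
      norm_num at this
    have hall : ∀ t : ℝ, 0 ≤ t → q + t • p ∈ S := by
      intro t ht
      apply continue_line hcl hq (T := t) hne' _ t ⟨ht, le_refl _⟩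
      intro t' _ hmem
      obtain ⟨D', hD'⟩ := hloc _ hmem
      apply local_translate hmem D' hD'
      have h1 : ∀ᶠ x in 𝓝 (q + t' • p), fderiv ℝ D.f p x ≠ 0 := by
        have h2 : ContinuousAt (fun x => fderiv ℝ D.f p x) (q + t' • p) :=
          (fderiv ℝ D.f p).continuous.continuousAt
        apply h2.eventually (isOpen_ne.mem_nhds _)
        show fderiv ℝ D.f p (q + t' • p) ≠ 0
        rw [map_add, map_smul, hpp, smul_zero, add_zero]
        exact hc
      filter_upwards [h1] with x hx hxS hxW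
      exact (hE1 p hp x hxS (hind p hp D hD x hx) D hD D' hxW).resolve_left hx
    -- the limit
    apply hc
    have hd : DifferentiableAt ℝ D.f p := (D.cda1 hD).differentiableAt (by norm_num)
    have hl : HasDerivAt (fun t : ℝ => p + t • q) q 0 := by
      simpa using ((hasDerivAt_id (0:ℝ)).smul_const q).const_add p
    have e0 : p + (0:ℝ) • q = p := by simp
    have h1 : HasDerivAt (fun t : ℝ => D.f (p + t • q)) (fderiv ℝ D.f p q) 0 := by
      have hd' : HasFDerivAt D.f (fderiv ℝ D.f p) (p + (0:ℝ) • q) := by rw [e0]; exact hd.hasFDerivAt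
      exact hd'.comp_hasDerivAt (0:ℝ) hl
    have h2 : Tendsto (fun t : ℝ => p + t • q) (𝓝 0) (𝓝 p) := by
      have := hl.continuousAt.tendsto
      rwa [e0] at this
    have h3 : ∀ᶠ t in 𝓝[>] (0:ℝ), D.f (p + t • q) = 0 := by
      have h4 : ∀ᶠ t in 𝓝[>] (0:ℝ), p + t • q ∈ D.W :=
        (h2.eventually (D.op.mem_nhds hD)).filter_mono nhdsWithin_le_nhds
      filter_upwards [h4, self_mem_nhdsWithin] with t ht ht0
      have ht0' : (0:ℝ) < t := ht0
      have h5 : p + t • q = t • (q + t⁻¹ • p) := by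
        rw [smul_add, smul_smul, mul_inv_cancel₀ ht0'.ne', one_smul, add_comm]
      have h6 : p + t • q ∈ S := by
        rw [h5]; exact hcone _ (hall _ (by positivity)) _ ht0'.ne'
      exact (D.ze _ ht).1 h6
    have h7 : HasDerivWithinAt (fun t : ℝ => D.f (p + t • q)) (fderiv ℝ D.f p q) (Ioi 0) 0 :=
      h1.hasDerivWithinAt
    have h8 : HasDerivWithinAt (fun t : ℝ => D.f (p + t • q)) 0 (Ioi 0) 0 := by
      have h9 : HasDerivWithinAt (fun _ : ℝ => (0:ℝ)) 0 (Ioi 0) 0 := hasDerivWithinAt_const _ _ _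
      apply h9.congr_of_eventuallyEq h3
      simp only [zero_smul, add_zero]
      exact (D.ze _ hD).1 hp
    exact (uniqueDiffWithinAt_Ioi 0).eq_deriv _ h7 h8
  obtain ⟨p₀, hp₀⟩ := hne
  obtain ⟨D₀, hD₀⟩ := hloc p₀ hp₀
  set L := fderiv ℝ D₀.f p₀ with hL
  have hL0 : L ≠ 0 := D₀.re p₀ hD₀ hp₀
  have hSL : ∀ q ∈ S, L q = 0 := fun q hq => hE2 p₀ hp₀ q hq D₀ hD₀
  refine ⟨L, hL0, fun x => ⟨fun hx => ⟨hnz x hx, hSL x hx⟩, ?_⟩⟩
  rintro ⟨hx0, hxL⟩
  by_cases hpar : x ∈ Submodule.span ℝ ({p₀} : Set Q4)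
  · rw [Submodule.mem_span_singleton] at hpar
    obtain ⟨a, rfl⟩ := hpar
    have ha : a ≠ 0 := by rintro rfl; simp at hx0
    exact hcone p₀ hp₀ a ha
  have hind' : Ind p₀ x := ind_of_notMem (hnz p₀ hp₀) hpar
  have hne' : ∀ t : ℝ, p₀ + t • (x - p₀) ≠ 0 := by
    intro t h0
    have h1 : (1 - t) • p₀ + t • x = 0 := by
      rw [← h0, smul_sub, sub_smul, one_smul]; abel
    have := hind' _ _ h1
    have h2 := this.1
    have h3 := this.2
    rw [h3] at h2
    norm_num at h2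
  have hfin : p₀ + (1:ℝ) • (x - p₀) ∈ S := by
    apply continue_line hcl hp₀ (T := 1) hne' _ 1 ⟨by norm_num, le_refl _⟩
    intro t _ hmem
    obtain ⟨D, hD⟩ := hloc _ hmem
    set z := p₀ + t • (x - p₀) with hz
    have hzL : L z = 0 := hSL z hmem
    have hpL : L p₀ = 0 := hSL p₀ hp₀
    have hxpL : L (x - p₀) = 0 := by rw [map_sub, hxL, hpL, sub_zero]
    obtain ⟨ν, hν1, hν2⟩ := two_functionals (D.re z hD hmem) hL0
    obtain ⟨C, hC, hroot⟩ := root (D.cda1 hD) ((D.ze z hD).1 hmem) hν1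
    have hline : Tendsto (fun s : ℝ => z + s • (x - p₀)) (𝓝[>] 0) (𝓝 z) := by
      have : Tendsto (fun s : ℝ => z + s • (x - p₀)) (𝓝 0) (𝓝 (z + (0:ℝ) • (x - p₀))) :=
        Continuous.tendsto (by fun_prop) 0
      rw [zero_smul, add_zero] at this
      exact this.mono_left nhdsWithin_le_nhds
    obtain ⟨ρ, hρ, hball⟩ := Metric.mem_nhds_iff.1 (D.op.mem_nhds hD)
    have hν0 : 0 ≤ ‖ν‖ := norm_nonneg _
    have h4 : ∀ᶠ y in 𝓝 z, C * |D.f y| < ρ / (2 * (1 + ‖ν‖)) := by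
      have hcont : ContinuousAt (fun y => C * |D.f y|) z :=
        continuousAt_const.mul (D.cda hD).continuousAt.abs
      apply hcont.eventually (gt_mem_nhds _)
      simp only [(D.ze z hD).1 hmem, abs_zero, mul_zero]
      positivity
    have h5 : ∀ᶠ y in 𝓝 z, dist y z < ρ / 2 := Metric.ball_mem_nhds z (by positivity)
    have hcomb : ∀ᶠ y in 𝓝 z, L y = 0 → y ∈ S := by
      filter_upwards [hroot, h4, h5] with y hy h4 h5 hyL
      obtain ⟨σ, hσ, h0⟩ := hy
      have hin : y + σ • ν ∈ D.W := by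
        apply hball
        rw [Metric.mem_ball]
        calc dist (y + σ • ν) z ≤ dist (y + σ • ν) y + dist y z := dist_triangle _ _ _
          _ = |σ| * ‖ν‖ + dist y z := by
              rw [dist_eq_norm (y + σ • ν), add_sub_cancel_left, norm_smul, Real.norm_eq_abs]
          _ ≤ ρ / (2 * (1 + ‖ν‖)) * ‖ν‖ + dist y z := by
              gcongr
              exact hσ.trans h4.le
          _ < ρ / 2 + ρ / 2 := by
              have : ρ / (2 * (1 + ‖ν‖)) * ‖ν‖ ≤ ρ / 2 := by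
                rw [div_mul_eq_mul_div, div_le_div_iff₀ (by positivity) (by positivity)]
                nlinarith
              linarith
          _ = ρ := by ring
      have hS1 : y + σ • ν ∈ S := (D.ze _ hin).2 h0
      have h6 := hSL _ hS1
      rw [map_add, map_smul, hyL, zero_add, smul_eq_mul] at h6
      have h7 : σ = 0 := (mul_eq_zero.1 h6).resolve_right hν2
      rw [h7, zero_smul, add_zero] at hS1
      exact hS1
    filter_upwards [hline.eventually hcomb] with s hs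
    apply hs
    rw [map_add, map_smul, hzL, hxpL, smul_zero, add_zero]
  rwa [one_smul, add_sub_cancel] at hfin

end Pool.Agent.Y713.CR
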