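import Pool.Agent.Y713.CR.Eq3
import Pool.Agent.Y713.CR.Meet
import Pool.Agent.Helper28.CrFinal

open Set Filter Topology MeasureTheory
open scoped ContDiff InnerProductSpace ENNReal

namespace Pool.Agent.Y713.CR

open Pool.Agent.Helper28.Cr

theorem area_ge {r : ℝ} (hr : 0 < r) {M : Set (E3 × E3)} (hS : IsSurf1 r M) (hc : IsClosed M)
    (hmeet : ∀ ζ y : Fin 3 → ℝ, n2 y = n2 ζ → y + ζ ≠ 0 → ∃ p ∈ M, G r ζ p = y) :
    (∫⁻ u in Metric.ball (0:E3) 1, MM r u) / C0 ≤ area M := by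
  obtain ⟨n, φ, B, O, hB, hinj, hO, hBO, hφ, hm, hdj, hcov⟩ := exists_family hr hS hc
  set F : Fam M := ⟨n, φ, B, O, hB, hinj, hO, hBO, hφ, hm, hdj⟩ with hF
  have h1 : ∫⁻ u in Metric.ball (0:E3) 1, MM r u ≤ C0 * F.A := by
    rw [F.area_eq hr hS.1]
    apply lintegral_mono
    intro u
    apply fam_lower hr hS.1 F
    intro ζ y h1 h2
    obtain ⟨p, hp, hG⟩ := hmeet ζ y h1 h2
    obtain ⟨i, w, hw, hwp⟩ := hcov p hp
    exact ⟨i, w, hw, by show G r ζ (φ i w) = y; rw [hwp]; exact hG⟩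
  calc (∫⁻ u in Metric.ball (0:E3) 1, MM r u) / C0 ≤ (C0 * F.A) / C0 := by gcongr
    _ = F.A := by
        rw [ENNReal.mul_div_right_comm, ENNReal.div_self C0_ne_zero C0_ne_top, one_mul]
    _ ≤ area M := F.le_area

theorem eq_flat {r : ℝ} (hr : 0 < r) {M : Set (E3 × E3)} (hS : IsSurf1 r M) (hc : IsClosed M)
    (hmeet : ∀ ζ y : Fin 3 → ℝ, n2 y = n2 ζ → y + ζ ≠ 0 → ∃ p ∈ M, G r ζ p = y)
    (hle : area M ≤ (∫⁻ u in Metric.ball (0:E3) 1, MM r u) / C0) :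
    ∀ p ∈ hat r M, ∀ q ∈ hat r M, Ind p q →
      ∀ Dp : LC (hat r M), p ∈ Dp.W → ∀ Dq : LC (hat r M), q ∈ Dq.W →
      fderiv ℝ Dp.f p q = 0 ∨ fderiv ℝ Dq.f q p = 0 := by
  intro p hp q hq hpq Dp hDp Dq hDq
  by_contra hcon
  push Not at hcon
  obtain ⟨n, φ, B, O, hB, hinj, hO, hBO, hφ, hm, hdj, hcov⟩ := exists_family hr hS hc
  set F : Fam M := ⟨n, φ, B, O, hB, hinj, hO, hBO, hφ, hm, hdj⟩ with hF
  -- a.e. equality
  have hpt : ∀ u, MM r u ≤ F.Y r u := by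
    intro u
    apply fam_lower hr hS.1 F
    intro ζ y h1 h2
    obtain ⟨p, hp, hG⟩ := hmeet ζ y h1 h2
    obtain ⟨i, w, hw, hwp⟩ := hcov p hp
    exact ⟨i, w, hw, by show G r ζ (φ i w) = y; rw [hwp]; exact hG⟩
  have hint : ∫⁻ u in Metric.ball (0:E3) 1, F.Y r u ≤ ∫⁻ u in Metric.ball (0:E3) 1, MM r u := by
    rw [← F.area_eq hr hS.1]
    calc C0 * F.A ≤ C0 * area M := by gcongr; exact F.le_area
      _ ≤ C0 * ((∫⁻ u in Metric.ball (0:E3) 1, MM r u) / C0) := by gcongr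
      _ = _ := ENNReal.mul_div_cancel C0_ne_zero C0_ne_top
  have hae := ae_eq_of_ae_le_of_lintegral_le (μ := volume.restrict (Metric.ball (0:E3) 1))
    (Eventually.of_forall hpt) (MM_int hr) F.measY hint
  -- the special direction
  set w₀ : E3 := !₂[xi0 1 p q 0, xi0 1 p q 1 / r, xi0 1 p q 2 / r] with hw₀
  set ε : ℝ := 1 / (2 * (‖w₀‖ + 1)) with hε
  have hw0 : 0 ≤ ‖w₀‖ := norm_nonneg _
  have hε0 : 0 < ε := by positivity
  have hz : zeta r (ε • w₀) = xi0 ε p q := by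
    ext i
    fin_cases i
    · simp [zeta, hw₀, xi0]
    · simp [zeta, hw₀, xi0]; field_simp
    · simp [zeta, hw₀, xi0]; field_simp
  have hball : ε • w₀ ∈ Metric.ball (0:E3) 1 := by
    rw [mem_ball_zero_iff, norm_smul, Real.norm_eq_abs, abs_of_pos hε0, hε]
    rw [div_mul_eq_mul_div, div_lt_one (by positivity)]
    linarith
  have hstr := strictY hr hS.1 F (fun p hp => hcov p hp) hmeet hp hq Dp hDp Dq hDq hcon.1 hcon.2 hpq
    hε0.ne' hz
  obtain ⟨W, hW, hWo, hWm⟩ := eventually_nhds_iff.1 hstr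
  have hopen : IsOpen (W ∩ Metric.ball (0:E3) 1) := hWo.inter Metric.isOpen_ball
  have hpos : 0 < volume (W ∩ Metric.ball (0:E3) 1) := hopen.measure_pos _ ⟨_, hWm, hball⟩
  have hnull : volume (W ∩ Metric.ball (0:E3) 1) = 0 := by
    rw [Filter.EventuallyEq, ae_restrict_iff' measurableSet_ball, ae_iff] at hae
    apply measure_mono_null _ hae
    rintro u ⟨hu1, hu2⟩
    simp only [mem_ofPred_eq, Classical.not_imp]
    exact ⟨hu2, (hW u hu1).ne⟩
  exact hpos.ne' hnull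

/-- in the case of equality the preimage in the quaternions is a hyperplane without the origin -/
theorem eq_plane {r : ℝ} (hr : 0 < r) {M : Set (E3 × E3)} (hS : IsSurf1 r M) (hc : IsClosed M)
    (hmeet : ∀ ζ y : Fin 3 → ℝ, n2 y = n2 ζ → y + ζ ≠ 0 → ∃ p ∈ M, G r ζ p = y)
    (hle : area M ≤ (∫⁻ u in Metric.ball (0:E3) 1, MM r u) / C0) :
    ∃ p : Q4, p ≠ 0 ∧ ∀ q, q ∈ hat r M ↔
      q ≠ 0 ∧ p 0 * q 0 + p 1 * q 1 + p 2 * q 2 + p 3 * q 3 = 0 := by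
  have hE1 := eq_flat hr hS hc hmeet hle
  have hne : (hat r M).Nonempty := by
    obtain ⟨x, hx, -⟩ := hmeet ![1, 0, 0] ![1, 0, 0] rfl (by
      intro h
      have := congrFun h 0
      norm_num at this)
    obtain ⟨q, hq, hqx⟩ := pr_surj hr (hS.1 hx)
    exact ⟨q, hq, by rw [hqx]; exact hx⟩
  obtain ⟨L, hL0, hL⟩ := cone_flat (S := hat r M) (fun q hq => hq.1)
    (fun q hq c hc => hat_smul hq hc) (fun q hq h => hat_closed hc hq h)
    (fun q hq => by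
      obtain ⟨D, hD, -⟩ := hat_LC hr hS hq
      exact ⟨D, hD⟩) hE1 hne
  set p : Q4 := fun i => L (Pi.single i 1) with hp
  have hLp : ∀ q : Q4, L q = p 0 * q 0 + p 1 * q 1 + p 2 * q 2 + p 3 * q 3 := by
    intro q
    have h1 : q = q 0 • (Pi.single 0 1 : Q4) + q 1 • (Pi.single 1 1 : Q4) +
        q 2 • (Pi.single 2 1 : Q4) + q 3 • (Pi.single 3 1 : Q4) := by
      ext i; fin_cases i <;> simp
    have h2 : L q = q 0 * p 0 + q 1 * p 1 + q 2 * p 2 + q 3 * p 3 := by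
      conv_lhs => rw [h1]
      simp only [map_add, map_smul, smul_eq_mul, hp]
    rw [h2]; ring
  have hp0 : p ≠ 0 := by
    intro h0
    apply hL0
    apply ContinuousLinearMap.ext
    intro q
    rw [hLp, h0]; simp
  refine ⟨p, hp0, fun q => ?_⟩
  rw [hL, hLp]

end Pool.Agent.Y713.CR
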