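import Pool.Agent.Y713.CR.Sgp

open Set Filter Topology MeasureTheory
open scoped ContDiff InnerProductSpace ENNReal

namespace Pool.Agent.Y713.CR

open Pool.Agent.Helper28.Cr

/-- the action of an isometry of `ℝ³` on the pairs of vectors -/
noncomputable def GG (g : E3 ≃ₗᵢ[ℝ] E3) : (E3 × E3) ≃L[ℝ] (E3 × E3) :=
  g.toContinuousLinearEquiv.prodCongr g.toContinuousLinearEquiv

lemma GG_app (g : E3 ≃ₗᵢ[ℝ] E3) (p : E3 × E3) : GG g p = (g p.1, g p.2) := rfl

lemma sas_GG (g : E3 ≃ₗᵢ[ℝ] E3) (p a b : E3 × E3) : sas (GG g p) (GG g a) (GG g b) = sas p a b := by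
  simp only [sas, GG_app, LinearIsometryEquiv.inner_map_map, ← map_smul, ← map_sub]

lemma jac_GG (g : E3 ≃ₗᵢ[ℝ] E3) (φ : ℝ × ℝ → E3 × E3) (w : ℝ × ℝ) :
    jac (GG g ∘ φ) w = jac φ w := by
  have h : ∀ e, fderiv ℝ (GG g ∘ φ) w e = GG g (fderiv ℝ φ w e) := by
    intro e
    rw [(GG g).comp_fderiv]
    rfl
  simp only [jac, gr, h, Function.comp_apply, sas_GG]

lemma area_GG_le (g : E3 ≃ₗᵢ[ℝ] E3) (S : Set (E3 × E3)) : area S ≤ area (GG g '' S) := by
  unfold area
  refine iSup_le fun n => iSup_le fun φ => iSup_le fun B => iSup_le fun h => ?_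
  have h' : IsFam (GG g '' S) (fun i => GG g ∘ φ i) B := by
    obtain ⟨h1, h2⟩ := h
    refine ⟨fun i => ?_, fun i j hij => ?_⟩
    · obtain ⟨hB, hinj, O, hO, hBO, hφ, hm⟩ := h1 i
      refine ⟨hB, (GG g).injective.comp_injOn hinj, O, hO, hBO, ?_, ?_⟩
      · exact (GG g).contDiff.comp_contDiffOn hφ
      · intro w hw
        exact ⟨_, hm hw, rfl⟩
    · show Disjoint ((GG g ∘ φ i) '' B i) ((GG g ∘ φ j) '' B j)
      rw [image_comp, image_comp]
      exact (disjoint_image_iff (GG g).injective).2 (h2 hij)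
  have h3 : famArea (fun i => GG g ∘ φ i) B = famArea φ B := by
    unfold famArea
    simp only [jac_GG]
  rw [← h3]
  exact le_iSup_of_le n (le_iSup_of_le (fun i => GG g ∘ φ i) (le_iSup_of_le B
    (le_iSup_of_le h' le_rfl)))

lemma area_GG (g : E3 ≃ₗᵢ[ℝ] E3) (S : Set (E3 × E3)) : area (GG g '' S) = area S := by
  apply le_antisymm _ (area_GG_le g S)
  have h := area_GG_le g.symm (GG g '' S)
  have h1 : GG g.symm '' (GG g '' S) = S := by
    rw [← image_comp]
    have : (GG g.symm ∘ GG g) = id := by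
      funext p
      simp only [Function.comp_apply, GG_app, LinearIsometryEquiv.symm_apply_apply]
      rfl
    rw [this, image_id]
  rwa [h1] at h

lemma Kp_GG (g : E3 ≃ₗᵢ[ℝ] E3) (r : ℝ) (a b m : E3) : Kp r (g a) (g b) (g m) = GG g (Kp r a b m) := by
  simp only [Kp, GG_app, LinearIsometryEquiv.inner_map_map, map_smul, map_sub]

lemma SigP_GG {r : ℝ} (hr : 0 < r) (g : E3 ≃ₗᵢ[ℝ] E3) {a b : E3} (h : Orth a b) :
    SigP r (g a) (g b) = GG g '' SigP r a b := by
  have h' : Orth (g a) (g b) := ⟨by rw [g.norm_map]; exact h.1, by rw [g.norm_map]; exact h.2.1, by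
    rw [g.inner_map_map]; exact h.2.2⟩
  rw [sigP_eq hr h, sigP_eq hr h']
  apply Subset.antisymm
  · rintro x ⟨m, hm, rfl⟩
    refine ⟨Kp r a b (g.symm m), ⟨_, ?_, rfl⟩, ?_⟩
    · rw [g.symm.norm_map]; exact hm
    · rw [← Kp_GG, g.apply_symm_apply]
  · rintro x ⟨y, ⟨m, hm, rfl⟩, rfl⟩
    exact ⟨g m, by rw [g.norm_map]; exact hm, (Kp_GG g r a b m).symm⟩

lemma orth_basis {a b : E3} (h : Orth a b) :
    ∃ B : OrthonormalBasis (Fin 3) ℝ E3, B 0 = a ∧ B 1 = b := by
  obtain ⟨ha, hb, hab⟩ := h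
  have hv : Orthonormal ℝ (({0, 1} : Set (Fin 3)).domRestrict (![a, b, 0] : Fin 3 → E3)) := by
    constructor
    · rintro ⟨i, hi⟩
      rcases hi with rfl | hi
      · simpa using ha
      · rw [mem_singleton_iff] at hi
        subst hi
        simpa using hb
    · rintro ⟨i, hi⟩ ⟨j, hj⟩ hij
      have hba : ⟪b, a⟫_ℝ = 0 := by rw [real_inner_comm]; exact hab
      rcases hi with rfl | hi <;> rcases hj with rfl | hj
      · exact absurd rfl hij
      · rw [mem_singleton_iff] at hj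
        subst hj
        simpa using hab
      · rw [mem_singleton_iff] at hi
        subst hi
        simpa using hba
      · rw [mem_singleton_iff] at hi hj
        subst hi; subst hj
        exact absurd rfl hij
  obtain ⟨B, hB⟩ := hv.exists_orthonormalBasis_extension_of_card_eq (by simp)
  exact ⟨B, by rw [hB 0 (by simp)]; rfl, by rw [hB 1 (by simp)]; rfl⟩

theorem area_SigP {r : ℝ} (hr : 0 < r) {a b a' b' : E3} (h : Orth a b) (h' : Orth a' b') :
    area (SigP r a' b') = area (SigP r a b) := by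
  obtain ⟨B, h0, h1⟩ := orth_basis h
  obtain ⟨B', h0', h1'⟩ := orth_basis h'
  set g : E3 ≃ₗᵢ[ℝ] E3 := B.equiv B' (Equiv.refl _) with hg
  have e0 : g a = a' := by
    rw [← h0, hg, OrthonormalBasis.equiv_apply_basis, ← h0']; rfl
  have e1 : g b = b' := by
    rw [← h1, hg, OrthonormalBasis.equiv_apply_basis, ← h1']; rfl
  rw [← e0, ← e1, SigP_GG hr g h, area_GG]

end Pool.Agent.Y713.CR
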