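import Pool.Agent.Y713.CR.Surf
import Pool.Agent.Helper28.CrFib

open Set Filter Topology MeasureTheory
open scoped ContDiff InnerProductSpace ENNReal

namespace Pool.Agent.Y713.CR

open Pool.Agent.Helper28.Cr

lemma crs0 (w x : E3) : crs w x 0 = w 1 * x 2 - w 2 * x 1 := by simp [crs]
lemma crs1 (w x : E3) : crs w x 1 = w 2 * x 0 - w 0 * x 2 := by simp [crs]
lemma crs2 (w x : E3) : crs w x 2 = w 0 * x 1 - w 1 * x 0 := by simp [crs]

lemma rot_app (w : E3) (t : ℝ) (x : E3) (i : Fin 3) : rot w t x i =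
    Real.cos t * x i + Real.sin t * crs w x i +
      (1 - Real.cos t) * (w 0 * x 0 + w 1 * x 1 + w 2 * x 2) * w i := by
  unfold rot
  rw [inner3]
  simp only [PiLp.add_apply, PiLp.smul_apply, smul_eq_mul]

lemma unit3 {w : E3} (hw : ‖w‖ = 1) : w 0 ^ 2 + w 1 ^ 2 + w 2 ^ 2 = 1 := by
  rw [← nsq3, hw]; norm_num

/-- the unit quaternion `cos t + sin t w` times `q` -/
noncomputable def lq (w : E3) (t : ℝ) (q : Q4) : Q4 :=
  Real.cos t • q + Real.sin t • qm ![0, w 0, w 1, w 2] q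

lemma nq_lq {w : E3} (hw : ‖w‖ = 1) (t : ℝ) (q : Q4) : nq (lq w t q) = nq q := by
  have h1 := unit3 hw
  have h2 := Real.sin_sq_add_cos_sq t
  simp only [lq, nq, qm, Pi.add_apply, Pi.smul_apply, smul_eq_mul, Matrix.cons_val_zero,
    Matrix.cons_val_one, Matrix.cons_val]
  linear_combination (Real.sin t ^ 2 * (q 0 ^ 2 + q 1 ^ 2 + q 2 ^ 2 + q 3 ^ 2)) * h1 +
    (q 0 ^ 2 + q 1 ^ 2 + q 2 ^ 2 + q 3 ^ 2) * h2

lemma c1_lq {w : E3} (hw : ‖w‖ = 1) (t : ℝ) (q : Q4) : c1 (lq w t q) = rot w (2 * t) (c1 q) := by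
  have h1 := unit3 hw
  have h2 := Real.sin_sq_add_cos_sq t
  have h3 := Real.sin_two_mul t
  have h4 := Real.cos_two_mul t
  apply ext3 <;> rw [rot_app] <;>
    simp only [crs0, crs1, crs2, h3, h4, lq, c1, qm, Pi.add_apply, Pi.smul_apply, smul_eq_mul,
      Matrix.cons_val_zero, Matrix.cons_val_one, Matrix.cons_val, WithLp.ofLp_toLp]
  · linear_combination (-(q 0 ^ 2 + q 1 ^ 2 - q 2 ^ 2 - q 3 ^ 2) + 2 * (w 0 * (q 0 ^ 2 + q 1 ^ 2 - q 2 ^ 2 - q 3 ^ 2) + w 1 * (2 * (q 1 * q 2 + q 0 * q 3)) + w 2 * (2 * (q 1 * q 3 - q 0 * q 2))) * w 0) * h2 + (-(Real.sin t ^ 2) * (q 0 ^ 2 + q 1 ^ 2 - q 2 ^ 2 - q 3 ^ 2)) * h1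
  · linear_combination (-(2 * (q 1 * q 2 + q 0 * q 3)) + 2 * (w 0 * (q 0 ^ 2 + q 1 ^ 2 - q 2 ^ 2 - q 3 ^ 2) + w 1 * (2 * (q 1 * q 2 + q 0 * q 3)) + w 2 * (2 * (q 1 * q 3 - q 0 * q 2))) * w 1) * h2 + (-(Real.sin t ^ 2) * (2 * (q 1 * q 2 + q 0 * q 3))) * h1
  · linear_combination (-(2 * (q 1 * q 3 - q 0 * q 2)) + 2 * (w 0 * (q 0 ^ 2 + q 1 ^ 2 - q 2 ^ 2 - q 3 ^ 2) + w 1 * (2 * (q 1 * q 2 + q 0 * q 3)) + w 2 * (2 * (q 1 * q 3 - q 0 * q 2))) * w 2) * h2 + (-(Real.sin t ^ 2) * (2 * (q 1 * q 3 - q 0 * q 2))) * h1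

lemma c2_lq {w : E3} (hw : ‖w‖ = 1) (t : ℝ) (q : Q4) : c2 (lq w t q) = rot w (2 * t) (c2 q) := by
  have h1 := unit3 hw
  have h2 := Real.sin_sq_add_cos_sq t
  have h3 := Real.sin_two_mul t
  have h4 := Real.cos_two_mul t
  apply ext3 <;> rw [rot_app] <;>
    simp only [crs0, crs1, crs2, h3, h4, lq, c2, qm, Pi.add_apply, Pi.smul_apply, smul_eq_mul,
      Matrix.cons_val_zero, Matrix.cons_val_one, Matrix.cons_val, WithLp.ofLp_toLp]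
  · linear_combination (-(2 * (q 1 * q 2 - q 0 * q 3)) + 2 * (w 0 * (2 * (q 1 * q 2 - q 0 * q 3)) + w 1 * (q 0 ^ 2 - q 1 ^ 2 + q 2 ^ 2 - q 3 ^ 2) + w 2 * (2 * (q 2 * q 3 + q 0 * q 1))) * w 0) * h2 + (-(Real.sin t ^ 2) * (2 * (q 1 * q 2 - q 0 * q 3))) * h1
  · linear_combination (-(q 0 ^ 2 - q 1 ^ 2 + q 2 ^ 2 - q 3 ^ 2) + 2 * (w 0 * (2 * (q 1 * q 2 - q 0 * q 3)) + w 1 * (q 0 ^ 2 - q 1 ^ 2 + q 2 ^ 2 - q 3 ^ 2) + w 2 * (2 * (q 2 * q 3 + q 0 * q 1))) * w 1) * h2 + (-(Real.sin t ^ 2) * (q 0 ^ 2 - q 1 ^ 2 + q 2 ^ 2 - q 3 ^ 2)) * h1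
  · linear_combination (-(2 * (q 2 * q 3 + q 0 * q 1)) + 2 * (w 0 * (2 * (q 1 * q 2 - q 0 * q 3)) + w 1 * (q 0 ^ 2 - q 1 ^ 2 + q 2 ^ 2 - q 3 ^ 2) + w 2 * (2 * (q 2 * q 3 + q 0 * q 1))) * w 2) * h2 + (-(Real.sin t ^ 2) * (2 * (q 2 * q 3 + q 0 * q 1))) * h1

lemma rot_smul (w : E3) (t c : ℝ) (x : E3) : rot w t (c • x) = c • rot w t x := by
  ext i
  rw [PiLp.smul_apply, rot_app, rot_app]
  fin_cases i <;> simp [crs0, crs1, crs2] <;> ring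

/-- left multiplication by a unit quaternion is a rotation -/
lemma pr_lq {w : E3} (hw : ‖w‖ = 1) (r t : ℝ) (q : Q4) : pr r (lq w t q) = orb w (2 * t) (pr r q) := by
  unfold pr orb
  rw [nq_lq hw, c1_lq hw, c2_lq hw, rot_smul, rot_smul]

lemma lq_ne {w : E3} (hw : ‖w‖ = 1) (t : ℝ) {q : Q4} (hq : q ≠ 0) : lq w t q ≠ 0 := by
  apply ne_of_nq
  rw [nq_lq hw]
  exact (nq_pos hq).ne'

lemma orb_mem {r : ℝ} (hr : 0 < r) {w : E3} (hw : ‖w‖ = 1) (t : ℝ) {p : E3 × E3} (hp : p ∈ TS r) :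
    orb w t p ∈ TS r := by
  obtain ⟨q, hq, rfl⟩ := pr_surj hr hp
  have h := pr_lq hw r (t / 2) q
  rw [show 2 * (t / 2) = t by ring] at h
  rw [← h]
  exact pr_mem hr (lq_ne hw _ hq)

/-- the velocity of an orbit -/
lemma hasDerivAt_rot (w x : E3) : HasDerivAt (fun t => rot w t x) (crs w x) 0 := by
  unfold rot
  have h1 := (Real.hasDerivAt_cos 0).smul_const x
  have h2 := (Real.hasDerivAt_sin 0).smul_const (crs w x)
  have h3 := (((Real.hasDerivAt_cos 0).const_sub 1).mul_const ⟪w, x⟫_ℝ).smul_const w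
  have h4 := (h1.fun_add h2).fun_add h3
  simpa using h4

lemma orb_zero (w : E3) (p : E3 × E3) : orb w 0 p = p := by
  unfold orb rot
  simp

/-- the derivative of the covering map along an orbit -/
lemma pr_deriv_lq {w : E3} (hw : ‖w‖ = 1) (r : ℝ) {q : Q4} (hq : q ≠ 0) :
    fderiv ℝ (pr r) q (qm ![0, w 0, w 1, w 2] q) =
      (2 : ℝ) • (crs w (pr r q).1, crs w (pr r q).2) := by
  have h1 : HasDerivAt (fun t : ℝ => lq w t q) (qm ![0, w 0, w 1, w 2] q) 0 := by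
    unfold lq
    have a := (Real.hasDerivAt_cos 0).smul_const q
    have b := (Real.hasDerivAt_sin 0).smul_const (qm ![0, w 0, w 1, w 2] q)
    have c := a.fun_add b
    simpa using c
  have e0 : lq w 0 q = q := by unfold lq; simp
  have h2 : HasFDerivAt (pr r) (fderiv ℝ (pr r) q) (lq w 0 q) := by
    rw [e0]
    exact ((cd_pr r hq).differentiableAt (by simp)).hasFDerivAt
  have h3 := h2.comp_hasDerivAt (0:ℝ) h1
  have h4 : HasDerivAt (fun t : ℝ => orb w (2 * t) (pr r q))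
      ((2 : ℝ) • (crs w (pr r q).1, crs w (pr r q).2)) 0 := by
    have a : HasDerivAt (fun t : ℝ => 2 * t) 2 0 := by
      simpa using (hasDerivAt_id (0:ℝ)).const_mul 2
    have b1 : HasDerivAt (fun t : ℝ => rot w t (pr r q).1) (crs w (pr r q).1) (2 * 0) := by
      rw [mul_zero]
      exact hasDerivAt_rot w _
    have b2 : HasDerivAt (fun t : ℝ => rot w t (pr r q).2) (crs w (pr r q).2) (2 * 0) := by
      rw [mul_zero]
      exact hasDerivAt_rot w _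
    exact (b1.scomp (0:ℝ) a).prodMk (b2.scomp (0:ℝ) a)
  have h5 : (pr r ∘ fun t : ℝ => lq w t q) = fun t : ℝ => orb w (2 * t) (pr r q) :=
    funext fun t => pr_lq hw r t q
  rw [h5] at h3
  exact h3.unique h4

end Pool.Agent.Y713.CR
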