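import Pool.Agent.Y713.CR.Orb
import Pool.Agent.Helper28.CrFinal

open Set Filter Topology MeasureTheory
open scoped ContDiff InnerProductSpace ENNReal

namespace Pool.Agent.Y713.CR

open Pool.Agent.Helper28.Cr

lemma rot_pi (w x : E3) : rot w Real.pi x = (2 * ⟪w, x⟫_ℝ) • w - x := by
  unfold rot
  rw [Real.cos_pi, Real.sin_pi, zero_smul, add_zero]
  rw [show (1 - -1 : ℝ) * ⟪w, x⟫_ℝ = 2 * ⟪w, x⟫_ℝ by ring, neg_one_smul]
  abel

lemma qm_lq (m : E3) (p : Q4) : lq m (Real.pi / 2) p = qm ![0, m 0, m 1, m 2] p := by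
  unfold lq
  rw [Real.cos_pi_div_two, Real.sin_pi_div_two]
  simp

/-- the half turns of the frame of `p` -/
lemma pr_half {r : ℝ} {p : Q4} {m : E3} (hm : ‖m‖ = 1) :
    pr r (qm ![0, m 0, m 1, m 2] p) = Kp r ((nq p)⁻¹ • c1 p) (-((nq p)⁻¹ • c2 p)) m := by
  rw [← qm_lq, pr_lq hm, show 2 * (Real.pi / 2) = Real.pi by ring]
  unfold orb pr Kp
  rw [rot_pi, rot_pi]
  apply Prod.ext
  · rfl
  · simp only [inner_smul_right, inner_neg_right, mul_smul, smul_sub, smul_neg, neg_smul, mul_neg]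
    rw [smul_comm r (2:ℝ)]
    simp only [smul_smul]
    abel

lemma perp_half (m : E3) (p : Q4) :
    p 0 * (qm ![0, m 0, m 1, m 2] p) 0 + p 1 * (qm ![0, m 0, m 1, m 2] p) 1 +
      p 2 * (qm ![0, m 0, m 1, m 2] p) 2 + p 3 * (qm ![0, m 0, m 1, m 2] p) 3 = 0 := by
  simp only [qm, Matrix.cons_val_zero, Matrix.cons_val_one, Matrix.cons_val]
  ring

/-- the set of the frames obtained from a fixed one by a half turn -/
theorem sigP_eq {r : ℝ} (hr : 0 < r) {a b : E3} (hab : Orth a b) :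
    SigP r a b = {x | ∃ m : E3, ‖m‖ = 1 ∧ x = Kp r a b m} := by
  obtain ⟨ha, hb, hab⟩ := hab
  have haa : ⟪a, a⟫_ℝ = 1 := by rw [real_inner_self_eq_norm_sq, ha]; norm_num
  apply Subset.antisymm
  · intro p hp
    exact (sigP_sub hr ha hb hab p hp).2
  · rintro x ⟨m, hm, rfl⟩
    have hgr : ∀ m : E3, ‖m‖ = 1 → ⟪m, a⟫_ℝ ≠ 0 → Kp r a b m ∈
        {p : E3 × E3 | p.1 ∈ {x | x ≠ -a} ∧ ‖p.1‖ = 1 ∧ p.2 = (fun x => r • Pf a b x) p.1} := by
      intro m hm h0
      have hne : (Kp r a b m).1 ≠ -a := by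
        intro h1
        have h2 : (2 * ⟪m, a⟫_ℝ) • m - a = -a := h1
        have h3 : (2 * ⟪m, a⟫_ℝ) • m = 0 := by
          have := congrArg (fun z => z + a) h2
          simpa using this
        rcases smul_eq_zero.1 h3 with h | h
        · exact h0 (by linarith)
        · rw [h, norm_zero] at hm
          norm_num at hm
      exact ⟨hne, (Kp_mem hr ha hb hab hm).1, Pf_of_Kp ha hab hm (Prod.mk.eta) hne⟩
    by_cases h0 : ⟪m, a⟫_ℝ = 0
    · have hcont : Continuous (fun t : ℝ => Kp r a b (Real.cos t • m + Real.sin t • a)) := by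
        unfold Kp; fun_prop
      have hlim : Tendsto (fun t : ℝ => Kp r a b (Real.cos t • m + Real.sin t • a)) (𝓝[>] 0)
          (𝓝 (Kp r a b m)) := by
        have := (hcont.tendsto 0).mono_left (nhdsWithin_le_nhds (s := Ioi (0:ℝ)))
        simpa using this
      apply mem_closure_of_tendsto hlim
      have hpi := Real.pi_pos
      filter_upwards [Ioo_mem_nhdsGT hpi] with t ht
      apply hgr
      · have h1 : ‖Real.cos t • m + Real.sin t • a‖ ^ 2 = 1 := by
          rw [norm_add_sq_real, inner_smul_left, inner_smul_right, h0, norm_smul, norm_smul, hm, ha]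
          have := Real.sin_sq_add_cos_sq t
          simp only [Real.norm_eq_abs, mul_one, sq_abs, mul_zero, add_zero]
          linarith
        nlinarith [norm_nonneg (Real.cos t • m + Real.sin t • a)]
      · rw [inner_add_left, inner_smul_left, inner_smul_left, h0, haa]
        simp only [conj_trivial, mul_zero, mul_one, zero_add]
        exact (Real.sin_pos_of_mem_Ioo ht).ne'
    · exact subset_closure (hgr m hm h0)

/-- a surface whose preimage in the quaternions is a hyperplane -/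
theorem eq_sigP {r : ℝ} (hr : 0 < r) {M : Set (E3 × E3)} (hM : M ⊆ TS r) {p : Q4} (hp : p ≠ 0)
    (h : ∀ q, q ∈ hat r M ↔ q ≠ 0 ∧ p 0 * q 0 + p 1 * q 1 + p 2 * q 2 + p 3 * q 3 = 0) :
    ∃ a b : E3, Orth a b ∧ M = SigP r a b := by
  refine ⟨(nq p)⁻¹ • c1 p, -((nq p)⁻¹ • c2 p), c_norms hp, ?_⟩
  rw [sigP_eq hr (c_norms hp)]
  apply Subset.antisymm
  · intro x hx
    obtain ⟨q, hq, hqx⟩ := pr_surj hr (hM hx)
    have h1 := (h q).1 ⟨hq, by rw [hqx]; exact hx⟩
    obtain ⟨m, hm, hK⟩ := flat_form (r := r) hp hq h1.2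
    exact ⟨m, hm, by rw [← hqx, hK]⟩
  · rintro x ⟨m, hm, rfl⟩
    rw [← pr_half hm]
    refine ((h _).2 ⟨?_, perp_half m p⟩).2
    rw [← qm_lq]
    exact lq_ne hm _ hp

end Pool.Agent.Y713.CR
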