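import Pool.Agent.Helper28.CrTop1

open Set Filter Topology MeasureTheory
open scoped ContDiff InnerProductSpace ENNReal

namespace Pool.Agent.Y713.CR

open Pool.Agent.Helper28.Cr

/-- local datum: an even local defining function of the cone `S` -/
structure LC (S : Set Q4) where
  W : Set Q4
  f : Q4 → ℝ
  op : IsOpen W
  sm : ContDiffOn ℝ 1 f W
  sy : ∀ x ∈ W, -x ∈ W
  ev : ∀ x ∈ W, f (-x) = f x
  ze : ∀ x ∈ W, (x ∈ S ↔ f x = 0)
  re : ∀ x ∈ W, x ∈ S → fderiv ℝ f x ≠ 0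

variable {S : Set Q4}

lemma LC.cda (D : LC S) {x : Q4} (hx : x ∈ D.W) : ContDiffAt ℝ 1 D.f x :=
  (D.sm x hx).contDiffAt (D.op.mem_nhds hx)

lemma LC.cda1 (D : LC S) {x : Q4} (hx : x ∈ D.W) : ContDiffAt ℝ 1 D.f x :=
  D.cda hx

/-- the two signs -/
lemma dich (D D' : LC S) {x : Q4} (hx : x ∈ D.W) (hx' : x ∈ D'.W) :
    (∀ᶠ y in 𝓝 x, 0 ≤ D.f y * D'.f y) ∨ (∀ᶠ y in 𝓝 x, D.f y * D'.f y ≤ 0) := by
  have hnear : ∀ᶠ y in 𝓝 x, y ∈ D.W ∧ y ∈ D'.W :=
    Filter.Eventually.and (D.op.mem_nhds hx) (D'.op.mem_nhds hx')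
  by_cases hS : x ∈ S
  · have hf0 : D.f x = 0 := (D.ze x hx).1 hS
    have hf1 := D.re x hx hS
    have hg1 := D'.re x hx' hS
    have hz : ∀ᶠ y in 𝓝 x, (D.f y = 0 ↔ D'.f y = 0) := by
      filter_upwards [hnear] with y hy
      rw [← D.ze y hy.1, ← D'.ze y hy.2]
    -- choose ν
    have hν : ∃ ν, 0 < fderiv ℝ D.f x ν ∧ fderiv ℝ D'.f x ν ≠ 0 := by
      obtain ⟨a, ha⟩ : ∃ a, 0 < fderiv ℝ D.f x a := by
        by_contra hn
        push Not at hn
        apply hf1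
        ext a
        have h1 := hn a
        have h2 := hn (-a)
        rw [map_neg] at h2
        simp only [_root_.zero_apply]
        linarith
      obtain ⟨b, hb⟩ : ∃ b, fderiv ℝ D'.f x b ≠ 0 := by
        by_contra hn
        push Not at hn
        exact hg1 (by ext a; simpa using hn a)
      by_cases hc : fderiv ℝ D'.f x a = 0
      · -- perturb
        set A := fderiv ℝ D.f x a with hA
        set B := fderiv ℝ D.f x b with hB
        refine ⟨a + (A / (2 * (1 + |B|))) • b, ?_, ?_⟩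
        · rw [map_add, map_smul, smul_eq_mul, ← hA, ← hB]
          have h0 : 0 ≤ |B| := abs_nonneg _
          have h1 : -(A / 2) ≤ A / (2 * (1 + |B|)) * B := by
            rw [div_mul_eq_mul_div, le_div_iff₀ (by positivity)]
            nlinarith [neg_abs_le B]
          linarith
        · rw [map_add, map_smul, hc, zero_add, smul_eq_mul]
          have h0 : 0 ≤ |B| := abs_nonneg _
          exact mul_ne_zero (by positivity) hb
      · exact ⟨a, ha, hc⟩
    obtain ⟨ν, h1, h2⟩ := hν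
    rcases lt_or_gt_of_ne h2 with h | h
    · right
      have hneg : fderiv ℝ (fun y => -(D'.f y)) x ν = -(fderiv ℝ D'.f x ν) := by
        rw [fderiv_fun_neg]; rfl
      have := same_sign (f := D.f) (g := fun y => -(D'.f y)) (x₀ := x) (ν := ν) (D.cda1 hx)
        ((D'.cda1 hx').neg) hf0 (by
          filter_upwards [hz] with y hy
          rw [hy]; simp) h1 (by rw [hneg]; linarith)
      filter_upwards [this] with y hy
      linarith [mul_neg (D.f y) (D'.f y)]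
    · left
      exact same_sign (D.cda1 hx) (D'.cda1 hx') hf0 hz h1 h
  · have h1 : D.f x ≠ 0 := fun h => hS ((D.ze x hx).2 h)
    have h2 : D'.f x ≠ 0 := fun h => hS ((D'.ze x hx').2 h)
    have hc : ContinuousAt (fun y => D.f y * D'.f y) x :=
      (D.cda hx).continuousAt.mul (D'.cda hx').continuousAt
    rcases lt_or_gt_of_ne (mul_ne_zero h1 h2) with h | h
    · right
      filter_upwards [hc.eventually (gt_mem_nhds h)] with y hy using le_of_lt hy
    · left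
      filter_upwards [hc.eventually (lt_mem_nhds h)] with y hy using le_of_lt hy

lemma excl (D D' : LC S) {x : Q4} (hx : x ∈ D.W) (hx' : x ∈ D'.W)
    (h1 : ∀ᶠ y in 𝓝 x, 0 ≤ D.f y * D'.f y) (h2 : ∀ᶠ y in 𝓝 x, D.f y * D'.f y ≤ 0) : False := by
  have hnear : ∀ᶠ y in 𝓝 x, y ∈ D.W ∧ y ∈ D'.W :=
    Filter.Eventually.and (D.op.mem_nhds hx) (D'.op.mem_nhds hx')
  have h3 : ∀ᶠ y in 𝓝 x, D.f y = 0 := by
    filter_upwards [h1, h2, hnear] with y a b c
    rcases mul_eq_zero.1 (le_antisymm b a) with h | h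
    · exact h
    · exact (D.ze y c.1).1 ((D'.ze y c.2).2 h)
  have hS : x ∈ S := (D.ze x hx).2 h3.self_of_nhds
  apply D.re x hx hS
  have : D.f =ᶠ[𝓝 x] fun _ => (0:ℝ) := h3
  rw [this.fderiv_eq]
  simp

open Classical in
/-- comparison sign of two local data at a point -/
noncomputable def eps (D D' : LC S) (x : Q4) : ℤ :=
  if (∀ᶠ y in 𝓝 x, 0 ≤ D.f y * D'.f y) then 1 else -1

lemma eps_mul_self (D D' : LC S) (x : Q4) : eps D D' x * eps D D' x = 1 := by
  unfold eps; split_ifs <;> norm_num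

lemma eps_comm (D D' : LC S) (x : Q4) : eps D D' x = eps D' D x := by
  unfold eps
  congr 1
  simp only [mul_comm]

lemma eps_neg (D D' : LC S) {x : Q4} (hx : x ∈ D.W) (hx' : x ∈ D'.W) :
    eps D D' (-x) = eps D D' x := by
  have hnear : ∀ᶠ y in 𝓝 x, y ∈ D.W ∧ y ∈ D'.W :=
    Filter.Eventually.and (D.op.mem_nhds hx) (D'.op.mem_nhds hx')
  have key : (∀ᶠ y in 𝓝 (-x), 0 ≤ D.f y * D'.f y) ↔ (∀ᶠ y in 𝓝 x, 0 ≤ D.f y * D'.f y) := by
    have e : 𝓝 (-x) = map (fun y => -y) (𝓝 x) := by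
      have := (Homeomorph.neg Q4).map_nhds_eq x
      exact this.symm
    rw [e, eventually_map]
    constructor
    · intro h
      filter_upwards [h, hnear] with y hy hy'
      rw [D.ev y hy'.1, D'.ev y hy'.2] at hy
      exact hy
    · intro h
      filter_upwards [h, hnear] with y hy hy'
      rw [D.ev y hy'.1, D'.ev y hy'.2]
      exact hy
  unfold eps
  by_cases h : ∀ᶠ y in 𝓝 x, 0 ≤ D.f y * D'.f y
  · rw [if_pos h, if_pos (key.2 h)]
  · rw [if_neg h, if_neg (fun h' => h (key.1 h'))]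

lemma eps_const (D D' : LC S) {C : Set Q4} (hC : IsPreconnected C) (h1 : C ⊆ D.W) (h2 : C ⊆ D'.W)
    {x y : Q4} (hx : x ∈ C) (hy : y ∈ C) : eps D D' x = eps D D' y := by
  set P : Set Q4 := {z | ∀ᶠ y in 𝓝 z, 0 ≤ D.f y * D'.f y} with hP
  set N : Set Q4 := {z | ∀ᶠ y in 𝓝 z, D.f y * D'.f y ≤ 0} with hN
  have oP : IsOpen P := isOpen_setOfPred_eventually_nhds
  have oN : IsOpen N := isOpen_setOfPred_eventually_nhds
  have hcov : C ⊆ P ∪ N := fun z hz => dich D D' (h1 hz) (h2 hz)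
  by_cases hxP : x ∈ P
  · have hyP : y ∈ P := by
      by_contra hyP
      have hyN : y ∈ N := (hcov hy).resolve_left hyP
      obtain ⟨z, hz, hzP, hzN⟩ := hC P N oP oN hcov ⟨x, hx, hxP⟩ ⟨y, hy, hyN⟩
      exact excl D D' (h1 hz) (h2 hz) hzP hzN
    unfold eps
    have hxP' : ∀ᶠ y in 𝓝 x, 0 ≤ D.f y * D'.f y := hxP
    have hyP' : ∀ᶠ z in 𝓝 y, 0 ≤ D.f z * D'.f z := hyP
    rw [if_pos hxP', if_pos hyP']
  · have hxN : x ∈ N := (hcov hx).resolve_left hxP
    have hyP : y ∉ P := by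
      intro hyP
      obtain ⟨z, hz, hzP, hzN⟩ := hC P N oP oN hcov ⟨y, hy, hyP⟩ ⟨x, hx, hxN⟩
      exact excl D D' (h1 hz) (h2 hz) hzP hzN
    unfold eps
    have hxP' : ¬ ∀ᶠ y in 𝓝 x, 0 ≤ D.f y * D'.f y := hxP
    have hyP' : ¬ ∀ᶠ z in 𝓝 y, 0 ≤ D.f z * D'.f z := hyP
    rw [if_neg hxP', if_neg hyP']

lemma eps_cocycle (D D' D'' : LC S) {x : Q4} (h1 : x ∈ D.W) (h2 : x ∈ D'.W) (h3 : x ∈ D''.W) :
    eps D D' x * eps D' D'' x = eps D D'' x := by
  have hnear : ∀ᶠ y in 𝓝 x, y ∈ D.W ∧ y ∈ D'.W ∧ y ∈ D''.W :=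
    Filter.Eventually.and (D.op.mem_nhds h1) (Filter.Eventually.and (D'.op.mem_nhds h2) (D''.op.mem_nhds h3))
  have hz : ∀ᶠ y in 𝓝 x, (D'.f y = 0 → D.f y = 0 ∧ D''.f y = 0) := by
    filter_upwards [hnear] with y hy h
    have hS := (D'.ze y hy.2.1).2 h
    exact ⟨(D.ze y hy.1).1 hS, (D''.ze y hy.2.2).1 hS⟩
  -- the sign of the product
  have hprod : ∀ᶠ y in 𝓝 x, ∀ (s t : ℝ), s * t = 1 ∨ s * t = -1 → 0 ≤ s * (D.f y * D'.f y) →
      0 ≤ t * (D'.f y * D''.f y) → 0 ≤ s * t * (D.f y * D''.f y) := by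
    filter_upwards [hz] with y hy s t hst a b
    by_cases h0 : D'.f y = 0
    · rw [(hy h0).1]; simp
    · have hp : 0 < D'.f y ^ 2 := by positivity
      have : 0 ≤ D'.f y ^ 2 * (s * t * (D.f y * D''.f y)) := by
        have := mul_nonneg a b
        nlinarith
      exact nonneg_of_mul_nonneg_right this hp
  rcases dich D D' h1 h2 with a | a <;> rcases dich D' D'' h2 h3 with b | b
  · have c : ∀ᶠ y in 𝓝 x, 0 ≤ D.f y * D''.f y := by
      filter_upwards [a, b, hprod] with y ha hb hp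
      simpa using hp 1 1 (by norm_num) (by simpa using ha) (by simpa using hb)
    unfold eps
    rw [if_pos a, if_pos b, if_pos c]; norm_num
  · have b' : ¬ ∀ᶠ y in 𝓝 x, 0 ≤ D'.f y * D''.f y := fun h => excl D' D'' h2 h3 h b
    have c : ∀ᶠ y in 𝓝 x, D.f y * D''.f y ≤ 0 := by
      filter_upwards [a, b, hprod] with y ha hb hp
      have := hp 1 (-1) (by norm_num) (by simpa using ha) (by linarith)
      linarith
    have c' : ¬ ∀ᶠ y in 𝓝 x, 0 ≤ D.f y * D''.f y := fun h => excl D D'' h1 h3 h c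
    unfold eps
    rw [if_pos a, if_neg b', if_neg c']; norm_num
  · have a' : ¬ ∀ᶠ y in 𝓝 x, 0 ≤ D.f y * D'.f y := fun h => excl D D' h1 h2 h a
    have c : ∀ᶠ y in 𝓝 x, D.f y * D''.f y ≤ 0 := by
      filter_upwards [a, b, hprod] with y ha hb hp
      have := hp (-1) 1 (by norm_num) (by linarith) (by simpa using hb)
      linarith
    have c' : ¬ ∀ᶠ y in 𝓝 x, 0 ≤ D.f y * D''.f y := fun h => excl D D'' h1 h3 h c
    unfold eps
    rw [if_neg a', if_pos b, if_neg c']; norm_num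
  · have a' : ¬ ∀ᶠ y in 𝓝 x, 0 ≤ D.f y * D'.f y := fun h => excl D D' h1 h2 h a
    have b' : ¬ ∀ᶠ y in 𝓝 x, 0 ≤ D'.f y * D''.f y := fun h => excl D' D'' h2 h3 h b
    have c : ∀ᶠ y in 𝓝 x, 0 ≤ D.f y * D''.f y := by
      filter_upwards [a, b, hprod] with y ha hb hp
      have := hp (-1) (-1) (by norm_num) (by linarith) (by linarith)
      simpa using this
    unfold eps
    rw [if_neg a', if_neg b', if_pos c]; norm_num

end Pool.Agent.Y713.CR
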